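import Pool.Agent.helper89.Flex.Lead

/-!
# The example does not have the algebraic overshear density property
-/

namespace Pool.Agent.helper89.Flex

open Polynomial AddMonoidAlgebra

/-- `a` only has components of `s`-weight at least `m`. -/
def GE (m : ℤ) (a : A) : Prop := ∀ w, cp w a ≠ 0 → m ≤ gS w

theorem GE.mono {m n : ℤ} {a : A} (h : GE m a) (hmn : n ≤ m) : GE n a :=
  fun w hw => hmn.trans (h w hw)

theorem GE.zero (m : ℤ) : GE m 0 := fun w hw => absurd (map_zero (cp w)) hw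

theorem GE.add {m : ℤ} {a b : A} (ha : GE m a) (hb : GE m b) : GE m (a + b) := by
  intro w hw
  by_cases h : cp w a = 0
  · rw [map_add, h, zero_add] at hw
    exact hb w hw
  · exact ha w h

theorem GE.sum {m : ℤ} {ι : Type*} (s : Finset ι) (f : ι → A) (h : ∀ i ∈ s, GE m (f i)) :
    GE m (∑ i ∈ s, f i) :=
  Finset.sum_induction _ (GE m) (fun _ _ => GE.add) (GE.zero m) h

theorem GE.cp {m : ℤ} {a : A} (h : GE m a) (w : G) : GE m (cp w a) := by
  intro v hv
  by_cases hvw : v = w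
  · subst hvw
    rw [cp_cp_self] at hv
    exact h v hv
  · exact absurd (cp_sg_ne hvw _ (val_mem a w)) hv

theorem GE.sg {m : ℤ} {w : G} {p : ℂ[X]} (hp : Cond Set.univ w p) (h : p ≠ 0 → m ≤ gS w) :
    GE m (sg w p hp) := by
  intro v hv
  by_cases hvw : v = w
  · subst hvw
    rw [cp_sg_self, Ne, sg_eq_zero_iff] at hv
    exact h hv
  · exact absurd (cp_sg_ne hvw _ hp) hv

theorem GE.mul {m n : ℤ} {a b : A} (ha : GE m a) (hb : GE n b) : GE (m + n) (a * b) := by
  rw [← sum_cp a, ← sum_cp b, Finset.sum_mul_sum]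
  refine GE.sum _ _ fun u hu => GE.sum _ _ fun v hv => ?_
  have h1 := ha u (mem_supp.mp hu)
  have h2 := hb v (mem_supp.mp hv)
  change GE (m + n) (Flex.sg u _ (val_mem a u) * Flex.sg v _ (val_mem b v))
  rw [sg_mul]
  exact GE.sg _ fun _ => by rw [gS_add]; omega

theorem le_of_lex {v w : G} (h : v ≤ w) : gS v ≤ gS w := by
  rw [← toLex_ofLex v, ← toLex_ofLex w, Prod.Lex.toLex_le_toLex] at h
  rcases h with h | h
  · exact h.le
  · exact h.1.le

/-- A nonzero element has a lowest component. -/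
theorem exists_min_supp {a : A} (ha : a ≠ 0) : ∃ w, cp w a ≠ 0 ∧ ∀ v < w, cp v a = 0 := by
  have hne : (supp a).Nonempty := by
    rw [Finset.nonempty_iff_ne_empty]
    intro h
    apply ha
    rw [← sum_cp a, h, Finset.sum_empty]
  obtain ⟨w, hw, hmin⟩ := Finset.exists_min_image _ id hne
  refine ⟨w, mem_supp.mp hw, fun v hv => ?_⟩
  by_contra hcon
  exact absurd (hmin v (mem_supp.mpr hcon)) (not_le.mpr hv)

section
variable {Θ : Derivation ℂ A A} (hΘ : IsLND Θ) {e0 : G} (he0 : cmpD Θ e0 ≠ 0)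
  (hlow : ∀ e < e0, cmpD Θ e = 0)
include hΘ he0 hlow

theorem cmpD_ne_zero_of_neg {w : G} {a : A} (ha : cp w a ≠ 0) (hw : gS w < 0) :
    cmpD Θ e0 (cp w a) ≠ 0 := by
  intro h
  have h1 := gS_nonneg_of_ker (isLND_lowest hlow hΘ) he0 (val_mem a w)
    (by rwa [Ne, ← cp_eq_zero_iff]) h
  omega

theorem ker_GE {a : A} (h : Θ a = 0) : GE 0 a := by
  by_cases ha : a = 0
  · rw [ha]; exact GE.zero 0
  obtain ⟨w, hw, hmin⟩ := exists_min_supp ha
  have h1 := (lead hlow hmin).2
  rw [h, map_zero] at h1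
  have h2 : 0 ≤ gS w := by
    by_contra hcon
    exact cmpD_ne_zero_of_neg hΘ he0 hlow hw (not_le.mp hcon) h1.symm
  intro v hv
  have h3 : w ≤ v := by
    by_contra hcon
    exact hv (hmin v (not_le.mp hcon))
  exact h2.trans (le_of_lex h3)

theorem gS_pos : 0 < gS e0 := by
  classical
  have hl := isLND_lowest hlow hΘ
  set D := cmpD Θ e0 with hD
  -- iterates of `X₀X₁` under the lowest component are homogeneous
  have hhom : ∀ n : ℕ, ∃ (p : ℂ[X]) (hp : Cond Set.univ (-(2 • edw 0) + n • e0) p),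
      (⇑D)^[n] (XX 0) = sg _ p hp := by
    intro n
    induction n with
    | zero =>
      have hc : Cond Set.univ (-(2 • edw 0) + 0 • e0) (lin 0 * lin (0 + 1)) := by
        rw [zero_nsmul, add_zero]; exact cond_XX 0
      exact ⟨_, hc, sg_congr (cond_XX 0) hc (by rw [zero_nsmul, add_zero]) rfl⟩
    | succ n ih =>
      obtain ⟨p, hp, h⟩ := ih
      rw [Function.iterate_succ_apply', h, hD, cmpD_sg]
      have h1 : -(2 • edw 0) + n • e0 + e0 = -(2 • edw 0) + (n + 1) • e0 := by
        rw [succ_nsmul e0 n, add_assoc]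
      have h2 := val_mem (Θ (sg _ p hp)) (-(2 • edw 0) + n • e0 + e0)
      have h3 := h2
      rw [h1] at h3
      have h4 : Cond Set.univ (-(2 • edw 0) + (n + 1) • e0)
          ((val Set.univ (Θ (sg _ p hp))).coeff (-(2 • edw 0) + n • e0 + e0)) := by
        rw [h1]; exact h3
      exact ⟨_, h4, sg_congr h2 h4 h1 rfl⟩
  have hex : ∃ n : ℕ, (⇑D)^[n] (XX 0) = 0 := hl _
  set n := Nat.find hex with hn
  have hn0 : (⇑D)^[n] (XX 0) = 0 := Nat.find_spec hex
  have hnpos : n ≠ 0 := by
    intro h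
    rw [h] at hn0
    exact XX_ne_zero 0 hn0
  obtain ⟨m, hm⟩ := Nat.exists_eq_succ_of_ne_zero hnpos
  have hm0 : (⇑D)^[m] (XX 0) ≠ 0 := Nat.find_min hex (by rw [← hn, hm]; exact Nat.lt_succ_self m)
  obtain ⟨p, hp, h⟩ := hhom m
  have hker : D ((⇑D)^[m] (XX 0)) = 0 := by
    have h9 := hn0
    rw [hm, Function.iterate_succ_apply'] at h9
    exact h9
  rw [h] at hker hm0
  have h3 := gS_nonneg_of_ker hl he0 hp (by rwa [Ne, sg_eq_zero_iff] at hm0) hker
  have h4 : gS (-(2 • edw 0) + m • e0) = -2 + m * gS e0 := by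
    rw [gS_add, gS_neg, gS_nsmul, gS_nsmul]
    have : gS (edw 0) = 1 := rfl
    rw [this]; push_cast; ring
  rw [h4] at h3
  by_contra hcon
  have h5 : gS e0 ≤ 0 := not_lt.mp hcon
  have h6 : (m : ℤ) * gS e0 ≤ 0 := mul_nonpos_of_nonneg_of_nonpos (Int.natCast_nonneg m) h5
  omega

omit hΘ he0 in
theorem GE_apply {m : ℤ} {a : A} (ha : GE m a) : GE (m + gS e0) (Θ a) := by
  have : Θ a = ∑ u ∈ supp a, Θ (cp u a) := by
    conv_lhs => rw [← sum_cp a]
    rw [map_sum]
  rw [this]
  refine GE.sum _ _ fun u hu => ?_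
  have h1 := ha u (mem_supp.mp hu)
  intro v hv
  have h2 : u + e0 ≤ v := by
    by_contra hcon
    exact hv (cp_low hlow (not_le.mp hcon) a)
  have h3 := le_of_lex h2
  rw [gS_add] at h3
  omega

/-- Overshear fields preserve the elements of nonnegative `s`-weight. -/
theorem overshear_GE {f : A} (hf : Θ (Θ f) = 0) {a : A} (ha : GE 0 a) : GE 0 (f * Θ a) := by
  have hpos := gS_pos hΘ he0 hlow
  have h1 := GE_apply hlow ha
  by_cases hf0 : f = 0
  · rw [hf0, zero_mul]; exact GE.zero 0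
  obtain ⟨w, hw, hmin⟩ := exists_min_supp hf0
  have hfw : GE (gS w) f := by
    intro v hv
    have h3 : w ≤ v := by
      by_contra hcon
      exact hv (hmin v (not_le.mp hcon))
    exact le_of_lex h3
  by_cases hneg : 0 ≤ gS w
  · exact (hfw.mul h1).mono (by omega)
  · have h4 := cmpD_ne_zero_of_neg hΘ he0 hlow hw (not_le.mp hneg)
    rw [← (lead hlow hmin).2] at h4
    have h5 := ker_GE hΘ he0 hlow hf _ h4
    rw [gS_add] at h5
    exact (hfw.mul h1).mono (by omega)

end

/-- The Lie subalgebra of the derivations preserving the elements of nonnegative `s`-weight. -/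
noncomputable def nonnegLie : LieSubalgebra ℂ (Derivation ℂ A A) where
  carrier := {v | ∀ a, GE 0 a → GE 0 (v a)}
  add_mem' := by
    intro v w hv hw a ha
    rw [Derivation.add_apply]
    exact (hv a ha).add (hw a ha)
  zero_mem' := by
    intro a _
    rw [Derivation.zero_apply]
    exact GE.zero 0
  smul_mem' := by
    intro c v hv a ha w hw
    rw [Derivation.smul_apply, map_smul] at hw
    exact hv a ha w (fun h => hw (by rw [h, smul_zero]))
  lie_mem' := by
    intro v w hv hw a ha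
    rw [Derivation.commutator_apply, sub_eq_add_neg]
    refine (hv _ (hw a ha)).add ?_
    intro u hu
    rw [map_neg] at hu
    exact hw _ (hv a ha) u (fun h => hu (by rw [h, neg_zero]))

theorem mem_nonnegLie {v : Derivation ℂ A A} : v ∈ nonnegLie ↔ ∀ a, GE 0 a → GE 0 (v a) := Iff.rfl

theorem overshear_le : overshearFields A ⊆ nonnegLie := by
  rintro _ ⟨Θ, f, hΘ, hf, rfl⟩
  intro a ha
  by_cases h0 : Θ = 0
  · rw [h0, smul_zero, Derivation.zero_apply]; exact GE.zero 0
  obtain ⟨e0, he0, hlow⟩ := exists_lowest h0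
  rw [Derivation.smul_apply, smul_eq_mul]
  exact overshear_GE hΘ he0 hlow hf ha

/-- The example does not have the algebraic overshear density property. -/
theorem not_AOSD : ¬ HasAOSD A := by
  intro h
  have h1 : LieSubalgebra.lieSpan ℂ (Derivation ℂ A A) (overshearFields A) ≤ nonnegLie :=
    LieSubalgebra.lieSpan_le.mpr overshear_le
  rw [HasAOSD] at h
  rw [h] at h1
  have h2 : XX 0 • T Set.univ (cl 0) ∈ nonnegLie := h1 (LieSubalgebra.mem_top _)
  have h3 : GE 0 (ed Set.univ 0) :=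
    GE.sg (Cond.of_nonneg (fun j _ => co_edw_nonneg 0 j) 1) fun _ => by
      change (0 : ℤ) ≤ 1; norm_num
  have h4 := mem_nonnegLie.mp h2 _ h3
  rw [Derivation.smul_apply, smul_eq_mul] at h4
  have h5 : XX 0 * T Set.univ (cl 0) (ed Set.univ 0) = XX 0 * ed Set.univ 0 := by
    rw [ed, mo, T_sg]
    have : cl 0 (edw 0) = 1 := by
      rw [cl_apply]
      have : co 0 (edw 0) = 1 := rfl
      rw [this]; norm_num
    rw [this, one_smul]
  rw [h5] at h4
  have h6 := h4 (-(2 • edw 0) + edw 0) (by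
    rw [XX, ed, mo, sg_mul, cp_sg_self, Ne, sg_eq_zero_iff, mul_one]
    exact mul_ne_zero (lin_ne_zero _) (lin_ne_zero _))
  have h7 : gS (-(2 • edw 0) + edw 0) = -1 := rfl
  rw [h7] at h6
  norm_num at h6

end Pool.Agent.helper89.Flex
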