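import Pool.Agent.helper89.Flex.Flexible

/-!
# The example has the algebraic density property
-/

namespace Pool.Agent.helper89.Flex

open Polynomial AddMonoidAlgebra

/-- The Lie algebra generated by the complete algebraic vector fields. -/
noncomputable def hh : LieSubalgebra ℂ (Derivation ℂ A A) :=
  LieSubalgebra.lieSpan ℂ (Derivation ℂ A A) {D | IsCompleteField D}

theorem hh_of_complete {D : Derivation ℂ A A} (h : IsCompleteField D) : D ∈ hh :=
  LieSubalgebra.subset_lieSpan h

theorem hh_of_LND {D : Derivation ℂ A A} (h : IsLND D) : D ∈ hh :=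
  hh_of_complete h.isCompleteField

theorem lie_smul_der (D D' : Derivation ℂ A A) (f : A) :
    ⁅D, f • D'⁆ = D f • D' + f • ⁅D, D'⁆ := by
  ext x
  simp only [Derivation.commutator_apply, Derivation.smul_apply, Derivation.add_apply,
    Derivation.leibniz, smul_eq_mul]
  ring

theorem lie_E_T (i : Fin 4) (l : G →+ ℂ) :
    ⁅E Set.univ i, T Set.univ l⁆ = -(l (ew i)) • E Set.univ i := by
  apply der_ext
  intro w p hp
  rw [Derivation.commutator_apply, Derivation.smul_apply]
  apply Ax_ext
  rw [map_sub, map_smul, val_E, val_T, val_T, val_E, val_sg]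
  simp only [derL_single, add_zero, zero_mul, smul_single, ← single_sub]
  congr 1
  rw [derivative_smul, map_add]
  simp only [smul_eq_C_mul, map_add, map_neg]
  ring

theorem lie_D_T (l : G →+ ℂ) :
    ⁅D0 Set.univ, T Set.univ l⁆ = -(l dw) • D0 Set.univ := by
  apply der_ext
  intro w p hp
  rw [Derivation.commutator_apply, Derivation.smul_apply]
  apply Ax_ext
  rw [map_sub, map_smul, val_D0, val_T, val_T, val_D0, val_sg]
  simp only [derL_single, add_zero, zero_mul, smul_single, ← single_sub]
  congr 1
  rw [derivative_smul, map_add]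
  simp only [smul_eq_C_mul, map_add, map_neg, AddMonoidHom.zero_apply, map_zero]
  ring

theorem T_comb (a b : ℂ) (l l' : G →+ ℂ) :
    T Set.univ (a • l + b • l') = a • T Set.univ l + b • T Set.univ l' := by
  apply der_ext
  intro w p hp
  rw [Derivation.add_apply, Derivation.smul_apply, Derivation.smul_apply, T_sg, T_sg, T_sg,
    AddMonoidHom.add_apply, add_smul]
  congr 1
  · rw [smul_smul]; rfl
  · rw [smul_smul]; rfl

/-- The infinitesimal torus action `ε₁ - ε₃`. -/
noncomputable def xi : G →+ ℂ := cl 1 - cl 3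

theorem xi_apply (w : G) : xi w = (co 1 w - co 3 w : ℂ) := rfl

/-- The weight `(0,3,5,2)`. -/
def cw : G := edw 0 + ew 0

theorem co_cw_nonneg (j : Fin 4) : 0 ≤ co j cw := by fin_cases j <;> decide

theorem main_identity (w : G) (g : ℂ[X]) (hg : Cond Set.univ w g)
    (hq : Cond Set.univ (w + cw) g) : sg (w + cw) g hq • T Set.univ xi ∈ hh := by
  set p : G := w + edw 0 with hp
  set q : G := w + cw with hqdef
  have hpq : p + ew 0 = q := by rw [hp, hqdef, cw]; abel
  have hgp : Cond Set.univ p g := hg.mono fun j _ => by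
    rw [hp, co_add]; have := co_edw_nonneg 0 j; omega
  -- `lin 0 * g'` in weight `q`
  have hq4 : Cond Set.univ q (lin 0 * derivative g) := by
    have h1 := pres_E Set.univ 0 p g hgp
    rw [hpq] at h1
    have h2 := (h1.sub (hq.smul (cl 0 p))).smul (1 / 2)
    have h3 : (1 / 2 : ℂ) • (cl 0 p • g + C 2 * lin 0 * derivative g - cl 0 p • g) =
        lin 0 * derivative g := by
      rw [add_sub_cancel_left, smul_eq_C_mul, ← mul_assoc, ← mul_assoc, ← C_mul]
      norm_num
    rwa [h3] at h2
  have hf0 : Cond Set.univ (q - dw) (g * lin 0) := by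
    intro j _
    by_cases hj : j = 0
    · subst hj
      have h1 : co 0 (q - dw) = co 0 w - 2 := by
        rw [co_sub, hqdef, co_add]
        have e1 : co 0 cw = 0 := by decide
        have e2 : co 0 dw = 2 := by decide
        rw [e1, e2]; ring
      have h2 : kap (co 0 w - 2) ≤ kap (co 0 w) + 1 := by unfold kap; omega
      rw [h1]
      refine (pow_dvd_pow _ h2).trans ?_
      rw [pow_succ]
      exact mul_dvd_mul (hg 0 trivial) (dvd_refl _)
    · have h1 : co j w ≤ co j (q - dw) := by
        rw [co_sub, hqdef, co_add, co_dw]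
        have : 2 ≤ co j cw := by
          fin_cases j
          · exact absurd rfl hj
          · decide
          · decide
          · decide
        omega
      exact ((pow_dvd_pow _ (kap_mono h1)).trans (hg j trivial)).mul_right _
  set f : A := sg p g hgp with hf
  set f0 : A := sg (q - dw) (g * lin 0) hf0 with hf0def
  set u3 : A := sg q g hq with hu3
  set u4 : A := sg q (lin 0 * derivative g) hq4 with hu4
  set P : ℂ := cl 0 p with hP
  set r : ℂ := xi p with hr
  -- values
  have v1 : E Set.univ 0 f = P • u3 + (2 : ℂ) • u4 := by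
    apply Ax_ext
    rw [val_E, hf, val_sg, derL_single, map_add (val Set.univ), map_smul (val Set.univ),
      map_smul (val Set.univ), hu3, hu4, val_sg, val_sg,
      smul_single, smul_single, ← single_add, hpq, smul_eq_C_mul (2 : ℂ), mul_assoc]
  have v2 : D0 Set.univ f0 = u3 + u4 := by
    apply Ax_ext
    rw [val_D0, hf0def, val_sg, derL_single, map_add, hu3, hu4, val_sg, val_sg, ← single_add,
      sub_add_cancel, AddMonoidHom.zero_apply, zero_smul, zero_add, one_mul, derivative_mul,
      derivative_lin]
    congr 1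
    ring
  have v3 : f • E Set.univ 0 - (2 : ℂ) • (f0 • D0 Set.univ) = u3 • T Set.univ (cl 0) := by
    apply der_ext
    intro v s hs
    apply Ax_ext
    have h1 : val Set.univ (f * E Set.univ 0 (sg v s hs) -
        (2 : ℂ) • (f0 * D0 Set.univ (sg v s hs))) =
        val Set.univ (u3 * T Set.univ (cl 0) (sg v s hs)) := by
      rw [map_sub, map_smul, map_mul, map_mul, map_mul, val_E, val_D0, val_T, hf, hf0def, hu3,
        val_sg, val_sg, val_sg, val_sg,
        derL_single, derL_single, derL_single, single_mul_single, single_mul_single,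
        single_mul_single, smul_single]
      have w1 : p + (v + ew 0) = q + v := by rw [← hpq]; abel
      have w2 : q - dw + (v + dw) = q + v := by abel
      have w3 : q + (v + 0) = q + v := by rw [add_zero]
      rw [w1, w2, w3, ← single_sub]
      congr 1
      rw [AddMonoidHom.zero_apply, zero_smul, zero_mul, zero_add, one_mul, add_zero]
      simp only [smul_eq_C_mul]
      ring
    exact h1
  -- the two commutators and the third field
  have hl1 : T Set.univ ((-r) • cl 0 + P • xi) f = 0 := by
    rw [hf, T_sg]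
    have : ((-r) • cl 0 + P • xi) p = 0 := by
      change (-r) * cl 0 p + P * xi p = 0
      rw [← hP, ← hr]; ring
    rw [this, zero_smul]
  have hl0 : T Set.univ (r • cl 0 + (-(P - 3)) • xi) f0 = 0 := by
    rw [hf0def, T_sg]
    have h1 : cl 0 (q - dw) = P - 3 := by
      rw [← hpq, map_sub, map_add, ← hP, cl_apply, cl_apply]
      have e1 : co 0 (ew 0) = -1 := by decide
      have e2 : co 0 dw = 2 := by decide
      rw [e1, e2]; push_cast; ring
    have h2 : xi (q - dw) = r := by
      rw [← hpq, map_sub, map_add, ← hr, xi_apply, xi_apply]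
      have e1 : co 1 (ew 0) = 2 := by decide
      have e2 : co 3 (ew 0) = 2 := by decide
      have e3 : co 1 dw = 2 := by decide
      have e4 : co 3 dw = 2 := by decide
      rw [e1, e2, e3, e4]; push_cast; ring
    have : (r • cl 0 + (-(P - 3)) • xi) (q - dw) = 0 := by
      change r * cl 0 (q - dw) + (-(P - 3)) * xi (q - dw) = 0
      rw [h1, h2]; ring
    rw [this, zero_smul]
  have hl2 : T Set.univ (r • cl 0 + (-(P - 1)) • xi) ((-(P + 2)) • u3 + (-3 : ℂ) • u4) = 0 := by
    have h1 : cl 0 q = P - 1 := by
      rw [← hpq, map_add, ← hP, cl_apply]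
      have e1 : co 0 (ew 0) = -1 := by decide
      rw [e1]; push_cast; ring
    have h2 : xi q = r := by
      rw [← hpq, map_add, ← hr, xi_apply]
      have e1 : co 1 (ew 0) = 2 := by decide
      have e2 : co 3 (ew 0) = 2 := by decide
      rw [e1, e2]; push_cast; ring
    have : (r • cl 0 + (-(P - 1)) • xi) q = 0 := by
      change r * cl 0 q + (-(P - 1)) * xi q = 0
      rw [h1, h2]; ring
    rw [map_add, Derivation.map_smul, Derivation.map_smul, hu3, hu4, T_sg, T_sg, this, zero_smul,
      zero_smul, smul_zero, smul_zero, add_zero]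
  have m1 : ⁅E Set.univ 0, f • T Set.univ ((-r) • cl 0 + P • xi)⁆ ∈ hh :=
    hh.lie_mem (hh_of_LND (isLND_E _ (Set.mem_univ 0))) (hh_of_complete (isComplete_smul_T _ hl1))
  have m0 : ⁅D0 Set.univ, f0 • T Set.univ (r • cl 0 + (-(P - 3)) • xi)⁆ ∈ hh :=
    hh.lie_mem (hh_of_LND (isLND_D0 _)) (hh_of_complete (isComplete_smul_T _ hl0))
  have m2 : ((-(P + 2)) • u3 + (-3 : ℂ) • u4) • T Set.univ (r • cl 0 + (-(P - 1)) • xi) ∈ hh :=
    hh_of_complete (isComplete_smul_T _ hl2)
  have e1 : ((-r) • cl 0 + P • xi) (ew 0) = r := by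
    change (-r) * cl 0 (ew 0) + P * xi (ew 0) = r
    rw [cl_apply, xi_apply]
    have e1 : co 1 (ew 0) = 2 := by decide
    have e2 : co 3 (ew 0) = 2 := by decide
    have e3 : co 0 (ew 0) = -1 := by decide
    rw [e1, e2, e3]; push_cast; ring
  have e2 : (r • cl 0 + (-(P - 3)) • xi) dw = 2 * r := by
    change r * cl 0 dw + (-(P - 3)) * xi dw = 2 * r
    rw [cl_apply, xi_apply]
    have e1 : co 1 dw = 2 := by decide
    have e2 : co 3 dw = 2 := by decide
    have e3 : co 0 dw = 2 := by decide
    rw [e1, e2, e3]; push_cast; ring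
  rw [lie_smul_der, lie_E_T, e1, v1, T_comb] at m1
  rw [lie_smul_der, lie_D_T, e2, v2, T_comb] at m0
  rw [T_comb] at m2
  have final : u3 • T Set.univ xi =
      -(((P • u3 + (2 : ℂ) • u4) • ((-r) • T Set.univ (cl 0) + P • T Set.univ xi) +
        f • (-r) • E Set.univ 0) -
      ((u3 + u4) • (r • T Set.univ (cl 0) + (-(P - 3)) • T Set.univ xi) +
        f0 • (-(2 * r)) • D0 Set.univ) -
      ((-(P + 2)) • u3 + (-3 : ℂ) • u4) •
        (r • T Set.univ (cl 0) + (-(P - 1)) • T Set.univ xi)) := by
    have v3' : ∀ x : A, f * E Set.univ 0 x =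
        u3 * T Set.univ (cl 0) x + algebraMap ℂ A 2 * (f0 * D0 Set.univ x) := by
      intro x
      have := congrArg (fun D : Derivation ℂ A A => D x) v3
      simp only [Derivation.sub_apply, Derivation.smul_apply, smul_eq_mul] at this
      rw [Algebra.smul_def] at this
      linear_combination this
    ext x
    simp only [Derivation.sub_apply, Derivation.smul_apply, Derivation.add_apply,
      Derivation.neg_apply, smul_eq_mul, Algebra.smul_def, map_neg, map_sub, map_add, map_mul]
    have := v3' x
    have h3 : algebraMap ℂ A 3 = 3 := map_ofNat _ 3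
    have h2 : algebraMap ℂ A 2 = 2 := map_ofNat _ 2
    have h1 : algebraMap ℂ A 1 = 1 := map_one _
    simp only [h1, h2, h3] at this ⊢
    linear_combination -(algebraMap ℂ A r) * this
  rw [final]
  exact hh.neg_mem (hh.sub_mem (hh.sub_mem m1 m0) m2)

end Pool.Agent.helper89.Flex
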