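import Pool.Agent.helper89.Flex.AD

/-!
# The example has the algebraic density property, continued
-/

namespace Pool.Agent.helper89.Flex

open Polynomial AddMonoidAlgebra

/-- All multiples of `v` lie in the Lie algebra `hh`. -/
def Mh (v : Derivation ℂ A A) : Prop := ∀ a : A, a • v ∈ hh

theorem Mh.mem {v : Derivation ℂ A A} (h : Mh v) : v ∈ hh := by
  have := h 1
  rwa [one_smul] at this

theorem Mh.smulA {v : Derivation ℂ A A} (h : Mh v) (b : A) : Mh (b • v) := by
  intro a
  rw [smul_smul]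
  exact h _

theorem Mh.add {v w : Derivation ℂ A A} (hv : Mh v) (hw : Mh w) : Mh (v + w) := by
  intro a
  rw [smul_add]
  exact hh.add_mem (hv a) (hw a)

theorem Mh.sub {v w : Derivation ℂ A A} (hv : Mh v) (hw : Mh w) : Mh (v - w) := by
  intro a
  rw [smul_sub]
  exact hh.sub_mem (hv a) (hw a)

theorem Mh.zero : Mh 0 := by
  intro a
  rw [smul_zero]
  exact hh.zero_mem

theorem Mh.sum {ι : Type*} (s : Finset ι) (v : ι → Derivation ℂ A A) (h : ∀ i ∈ s, Mh (v i)) :
    Mh (∑ i ∈ s, v i) :=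
  Finset.sum_induction _ Mh (fun _ _ => Mh.add) Mh.zero h

theorem Mh.smulC {v : Derivation ℂ A A} (h : Mh v) (c : ℂ) : Mh (c • v) := by
  intro a
  rw [smul_comm]
  exact hh.smul_mem c (h a)

/-- `Mh` is stable under brackets with elements of `hh`. -/
theorem Mh.lie {w v : Derivation ℂ A A} (hw : w ∈ hh) (hv : Mh v) : Mh ⁅w, v⁆ := by
  intro a
  have : a • ⁅w, v⁆ = ⁅w, a • v⁆ - w a • v := by
    rw [lie_smul_der]; abel
  rw [this]
  exact hh.sub_mem (hh.lie_mem hw (hv a)) (hv _)

/-- If `v` is in `Mh` and `k` is in the kernel of the LND `Ξ`, then `v(k) Ξ` is in `Mh`. -/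
theorem Mh.transfer {v Ξ : Derivation ℂ A A} (hv : Mh v) (hΞ : IsLND Ξ) {k : A} (hk : Ξ k = 0) :
    Mh (v k • Ξ) := by
  intro a
  have : a • v k • Ξ = ⁅Ξ, (k * a) • v⁆ - ⁅k • Ξ, a • v⁆ := by
    ext x
    simp only [Derivation.commutator_apply, Derivation.smul_apply, Derivation.sub_apply,
      Derivation.leibniz, smul_eq_mul, hk]
    ring
  rw [this]
  exact hh.sub_mem (hh.lie_mem (hh_of_LND hΞ) (hv _))
    (hh.lie_mem (hh_of_LND (hΞ.smul_ker hk)) (hv a))

/-- The first element of `Mh`. -/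
theorem Mh_first : Mh ((mo cw fun j _ => co_cw_nonneg j : A) • T Set.univ xi) := by
  intro a
  induction a using Ax_induction with
  | h0 => rw [zero_smul]; exact hh.zero_mem
  | hadd a b ha hb => rw [add_smul]; exact hh.add_mem ha hb
  | hs w g hg =>
    rw [smul_smul, mo, sg_mul]
    have hq : Cond Set.univ (w + cw) g := by
      have := hg.mul (Cond.of_nonneg (J := Set.univ) (w := cw) (fun j _ => co_cw_nonneg j) 1)
      rwa [mul_one] at this
    rw [sg_congr _ hq rfl (mul_one g)]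
    exact main_identity w g hg hq

theorem xi_edw : xi (edw 0) = 1 ∧ xi (edw 1) = 1 ∧ xi (edw 2) = -1 := by
  refine ⟨?_, ?_, ?_⟩
  · rw [xi_apply]
    have e1 : co 1 (edw 0) = 1 := by decide
    have e2 : co 3 (edw 0) = 0 := by decide
    rw [e1, e2]; norm_num
  · rw [xi_apply]
    have e1 : co 1 (edw 1) = 1 := by decide
    have e2 : co 3 (edw 1) = 0 := by decide
    rw [e1, e2]; norm_num
  · rw [xi_apply]
    have e1 : co 1 (edw 2) = 0 := by decide
    have e2 : co 3 (edw 2) = 1 := by decide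
    rw [e1, e2]; norm_num

theorem E_ed_of_co {i k : Fin 4} (h : co i (edw k) = 0) : E Set.univ i (ed Set.univ k) = 0 := by
  apply Ax_ext
  rw [val_E, val_ed, derL_single, cl_apply, h, derivative_one, mul_zero, add_zero]
  simp

theorem D0_ed (k : Fin 4) : D0 Set.univ (ed Set.univ k) = 0 := by
  apply Ax_ext
  rw [val_D0, val_ed, derL_single, derivative_one, AddMonoidHom.zero_apply, zero_smul, zero_add,
    mul_zero, single_zero, map_zero]

/-- `p⁶` times an LND `Ξ` with `Ξ(Y_k Y_{k+1}) = 0` is in `Mh`, if `ξ(Y_k Y_{k+1}) ≠ 0`. -/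
theorem Mh_aux {Ξ : Derivation ℂ A A} (hΞ : IsLND Ξ) (k : Fin 4) (hk : Ξ (ed Set.univ k) = 0)
    (hxi : xi (edw k) ≠ 0) (hn : ∀ j, 0 ≤ co j (6 • ow - cw - edw k)) : Mh (pp ^ 6 • Ξ) := by
  have h1 := (Mh_first.transfer hΞ hk).smulC (xi (edw k))⁻¹
  have h2 := h1.smulA (mo (6 • ow - cw - edw k) fun j _ => hn j)
  have h3 : (mo (6 • ow - cw - edw k) fun j _ => hn j : A) •
      (xi (edw k))⁻¹ • (((mo cw fun j _ => co_cw_nonneg j : A) • T Set.univ xi)
        (ed Set.univ k)) • Ξ = pp ^ 6 • Ξ := by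
    have h4 : ((mo cw fun j _ => co_cw_nonneg j : A) • T Set.univ xi) (ed Set.univ k) =
        xi (edw k) • ((mo cw fun j _ => co_cw_nonneg j : A) * ed Set.univ k) := by
      have h5 : T Set.univ xi (ed Set.univ k) = xi (edw k) • ed Set.univ k :=
        T_sg xi (edw k) 1 (Cond.of_nonneg (fun j _ => co_edw_nonneg k j) 1)
      rw [Derivation.smul_apply, h5, smul_eq_mul, mul_smul_comm]
    rw [h4, smul_assoc (xi (edw k)), smul_smul (xi (edw k))⁻¹, inv_mul_cancel₀ hxi, one_smul,
      smul_smul]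
    congr 1
    apply Ax_ext
    rw [map_mul, map_mul, map_pow, val_mo, val_mo, val_ed, val_pp, single_mul_single,
      single_mul_single, single_pow, one_mul, one_mul, one_pow]
    congr 1
    abel
  rwa [h3] at h2

theorem Mh_E (i : Fin 4) : Mh (pp ^ 6 • E Set.univ i) := by
  obtain ⟨x0, x1, x2⟩ := xi_edw
  fin_cases i
  · exact Mh_aux (isLND_E _ trivial) 1 (E_ed_of_co (by decide)) (by rw [x1]; norm_num) (by decide)
  · exact Mh_aux (isLND_E _ trivial) 2 (E_ed_of_co (by decide)) (by rw [x2]; norm_num) (by decide)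
  · exact Mh_aux (isLND_E _ trivial) 0 (E_ed_of_co (by decide)) (by rw [x0]; norm_num) (by decide)
  · exact Mh_aux (isLND_E _ trivial) 0 (E_ed_of_co (by decide)) (by rw [x0]; norm_num) (by decide)

theorem Mh_D0 : Mh (pp ^ 6 • D0 Set.univ) := by
  obtain ⟨x0, x1, x2⟩ := xi_edw
  exact Mh_aux (isLND_D0 _) 0 (D0_ed 0) (by rw [x0]; norm_num) (by decide)

theorem pp_ne_zero : pp ≠ 0 := by
  intro h
  have := congrArg (val Set.univ) h
  rw [val_pp, map_zero] at this
  exact one_ne_zero (single_eq_zero.mp this)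

theorem hc_nonneg (j i : Fin 4) : 0 ≤ co i (6 • ow - 3 • fw j) := by
  revert i j; decide

/-- The complementary monomial: `p⁶ = f_j³ · hc_j`. -/
noncomputable def hc (j : Fin 4) : A := mo (6 • ow - 3 • fw j) fun i _ => hc_nonneg j i

theorem ff_hc (j : Fin 4) : ff Set.univ j ^ 3 * hc j = pp ^ 6 := by
  apply Ax_ext
  rw [map_mul, map_pow, map_pow, val_ff, hc, val_mo, val_pp, single_pow, single_pow,
    single_mul_single, one_pow, one_pow, one_mul, add_sub_cancel]

theorem E_ed_pp (j i : Fin 4) : E Set.univ j (ed Set.univ i) * pp =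
    (co j (edw i) : ℂ) • (ed Set.univ i * ff Set.univ j ^ 3) := by
  rw [← ff_pow]
  apply Ax_ext
  rw [map_mul, map_smul, map_mul, val_E, val_ed, val_pp, val_mo, derL_single,
    derivative_one, mul_zero, add_zero, single_mul_single,
    single_mul_single, smul_single, cl_apply]
  congr 1
  · abel
  · rw [mul_one, mul_one]

theorem D0_zz : D0 Set.univ zz = pp ^ 2 := by
  apply Ax_ext
  rw [val_D0, val_zz, derL_single, map_pow, val_pp, single_pow, one_pow, derivative_X,
    AddMonoidHom.zero_apply, zero_smul, zero_add, zero_add, one_mul]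
  rfl

/-- `p⁸ v` is a combination of the `E_j` and `D_0`, for every derivation `v`. -/
theorem decompose (v : Derivation ℂ A A) : ∃ (a : Fin 4 → A) (b : A),
    pp ^ 8 • v = ∑ j, a j • E Set.univ j + b • D0 Set.univ := by
  set Λ : Fin 4 → A := fun i => v (ed Set.univ i) * ed Set.univ (i + 2) with hΛ
  have hrel : Λ 0 + Λ 2 = Λ 1 + Λ 3 := by
    have e0 : v pp = Λ 0 + Λ 2 := by
      rw [pp_eq 0, Derivation.leibniz, hΛ]
      simp only [smul_eq_mul]
      rw [show (0 : Fin 4) + 2 = 2 from rfl, show (2 : Fin 4) + 2 = 0 from rfl]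
      ring
    have e1 : v pp = Λ 1 + Λ 3 := by
      rw [pp_eq 1, Derivation.leibniz, hΛ]
      simp only [smul_eq_mul]
      rw [show (1 : Fin 4) + 2 = 3 from rfl, show (3 : Fin 4) + 2 = 1 from rfl]
      ring
    rw [← e0, ← e1]
  set lam : Fin 4 → A := ![0, Λ 0, Λ 1 - Λ 0, Λ 3] with hlam
  have hlam' : ∀ i, ∑ j, (co j (edw i) : ℂ) • lam j = Λ i := by
    intro i
    rw [Fin.sum_univ_four]
    fin_cases i
    · simp [hlam, co, edw]
    · simp [hlam, co, edw]
    · simp [hlam, co, edw]; linear_combination -hrel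
    · simp [hlam, co, edw]
  refine ⟨fun j => pp ^ 2 * (lam j * hc j),
    pp ^ 6 * v zz - ∑ j, lam j * hc j * E Set.univ j zz, ?_⟩
  have hsum : ∀ x : A, (∑ j, (pp ^ 2 * (lam j * hc j)) • E Set.univ j) x =
      ∑ j, pp ^ 2 * (lam j * hc j) * E Set.univ j x := by
    intro x
    rw [Fin.sum_univ_four, Fin.sum_univ_four]
    simp only [Derivation.add_apply, Derivation.smul_apply, smul_eq_mul]
  apply der_eq_of_gens
  · rw [Derivation.add_apply, Derivation.smul_apply, Derivation.smul_apply, hsum, D0_zz]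
    simp only [smul_eq_mul, Fin.sum_univ_four]
    ring
  · intro i
    rw [Derivation.add_apply, Derivation.smul_apply, Derivation.smul_apply, hsum, D0_ed,
      smul_zero, add_zero, smul_eq_mul]
    apply mul_right_cancel₀ pp_ne_zero
    rw [Finset.sum_mul]
    have h1 : ∀ j, pp ^ 2 * (lam j * hc j) * E Set.univ j (ed Set.univ i) * pp =
        pp ^ 8 * ed Set.univ i * ((co j (edw i) : ℂ) • lam j) := by
      intro j
      have h2 := E_ed_pp j i
      have h3 := ff_hc j
      rw [Algebra.smul_def] at h2 ⊢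
      linear_combination (pp ^ 2 * (lam j * hc j)) * h2 +
        (pp ^ 2 * lam j * algebraMap ℂ A (co j (edw i) : ℂ) * ed Set.univ i) * h3
    rw [Finset.sum_congr rfl fun j _ => h1 j, ← Finset.mul_sum, hlam', hΛ]
    have h4 := pp_eq i
    rw [pow_succ pp 7]
    nth_rewrite 2 [h4]
    ring

theorem Mh_pp (v : Derivation ℂ A A) : Mh (pp ^ 14 • v) := by
  obtain ⟨a, b, h⟩ := decompose v
  have h1 : pp ^ 14 • v = ∑ j, a j • (pp ^ 6 • E Set.univ j) + b • (pp ^ 6 • D0 Set.univ) := by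
    have h2 : pp ^ 14 = pp ^ 6 * pp ^ 8 := by rw [← pow_add]
    have h3 : pp ^ 14 • v = pp ^ 6 • (pp ^ 8 • v) := by rw [h2, mul_smul]
    have h4 : pp ^ 6 • (b • D0 Set.univ) = b • (pp ^ 6 • D0 Set.univ) := smul_comm _ _ _
    have h5 : ∀ j, pp ^ 6 • (a j • E Set.univ j) = a j • (pp ^ 6 • E Set.univ j) :=
      fun j => smul_comm _ _ _
    rw [h3, h, smul_add, Finset.smul_sum, h4, Finset.sum_congr rfl fun j _ => h5 j]
  rw [h1]
  exact (Mh.sum _ _ fun j _ => (Mh_E j).smulA _).add (Mh_D0.smulA _)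

/-- All multiples `a • v` are in `Mh`. -/
def Mi (a : A) : Prop := ∀ v : Derivation ℂ A A, Mh (a • v)

theorem Mi.add {a b : A} (ha : Mi a) (hb : Mi b) : Mi (a + b) := by
  intro v
  rw [add_smul]
  exact (ha v).add (hb v)

theorem Mi.zero : Mi 0 := by
  intro v
  rw [zero_smul]
  exact Mh.zero

theorem Mi.mul {a : A} (c : A) (ha : Mi a) : Mi (c * a) := by
  intro v
  rw [mul_smul]
  exact (ha v).smulA c

/-- The ideal of the `a` with `a • v ∈ Mh` for all `v`. -/
noncomputable def II : Ideal A where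
  carrier := {a | Mi a}
  add_mem' := Mi.add
  zero_mem' := Mi.zero
  smul_mem' := fun c _ ha => Mi.mul c ha

theorem mem_II {a : A} : a ∈ II ↔ Mi a := Iff.rfl

theorem II_stable {Ξ : Derivation ℂ A A} (hΞ : IsLND Ξ) {a : A} (ha : a ∈ II) : Ξ a ∈ II := by
  rw [mem_II] at ha ⊢
  intro v
  have : Ξ a • v = ⁅Ξ, a • v⁆ - a • ⁅Ξ, v⁆ := by
    rw [lie_smul_der]; abel
  rw [this]
  exact (Mh.lie (hh_of_LND hΞ) (ha v)).sub (ha _)

theorem II_step (i : Fin 4) (n : ℕ) : ∀ m : ℕ, pp ^ n * ff Set.univ i ^ m ∈ II →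
    ff Set.univ i ^ (m + 3 * n) ∈ II := by
  induction n with
  | zero =>
    intro m h
    rw [pow_zero, one_mul] at h
    exact h
  | succ n ih =>
    intro m h
    have h1 := II_stable (isLND_E Set.univ (Set.mem_univ i)) h
    rw [Derivation.leibniz, E_ff_pow, smul_zero, zero_add, Derivation.leibniz_pow, E_pp,
      Nat.add_sub_cancel] at h1
    have h2 : ff Set.univ i ^ m • (n + 1) • pp ^ n • ff Set.univ i ^ 3 =
        algebraMap ℂ A ((n : ℂ) + 1) * (pp ^ n * ff Set.univ i ^ (m + 3)) := by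
      simp only [smul_eq_mul, nsmul_eq_mul, pow_add, map_add, map_one, map_natCast]
      push_cast
      ring
    rw [h2] at h1
    have h3 := II.mul_mem_left (algebraMap ℂ A ((n : ℂ) + 1)⁻¹) h1
    rw [← mul_assoc, ← map_mul, inv_mul_cancel₀ (by exact_mod_cast n.succ_ne_zero), map_one,
      one_mul] at h3
    have h4 := ih _ h3
    rwa [show m + 3 + 3 * n = m + 3 * (n + 1) by ring] at h4

theorem II_eq_top : II = ⊤ := by
  have h1 : ∀ i, ff Set.univ i ^ 42 ∈ II := by
    intro i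
    have := II_step i 14 0 (by
      rw [pow_zero, mul_one, mem_II]
      exact fun v => Mh_pp v)
    simpa using this
  rw [eq_top_iff, ← Ideal.span_pow_eq_top _ span_ff 42, Ideal.span_le]
  rintro _ ⟨_, ⟨i, rfl⟩, rfl⟩
  exact h1 i

/-- The example has the algebraic density property. -/
theorem AD_A : HasAD A := by
  rw [HasAD, eq_top_iff]
  intro v _
  have h1 : (1 : A) ∈ II := by rw [II_eq_top]; trivial
  have h2 := mem_II.mp h1 v
  rw [one_smul] at h2
  exact h2.mem

end Pool.Agent.helper89.Flex
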