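import Pool.Agent.helper89.Flex.Fields

/-!
# The four charts of the example; smoothness
-/

namespace Pool.Agent.helper89.Flex

open Polynomial AddMonoidAlgebra

/-- Inclusion `Ax J → Ax K` for `K ⊆ J`. -/
noncomputable def incl {J K : Set (Fin 4)} (h : K ⊆ J) : Ax J →ₐ[ℂ] Ax K where
  toFun a := mkA (val J a) (fun w => (val_mem a w).subset h)
  map_one' := Ax_ext (by simp)
  map_mul' a b := Ax_ext (by simp)
  map_zero' := Ax_ext (by simp)
  map_add' a b := Ax_ext (by simp)
  commutes' c := Ax_ext (by simp)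

@[simp] theorem val_incl {J K : Set (Fin 4)} (h : K ⊆ J) (a : Ax J) :
    val K (incl h a) = val J a := rfl

/-- The monomial `χ^w` when all the coordinates of `w` at `J` are nonnegative. -/
noncomputable def mo {J : Set (Fin 4)} (w : G) (h : ∀ i ∈ J, 0 ≤ co i w) : Ax J :=
  sg w 1 (Cond.of_nonneg h 1)

@[simp] theorem val_mo {J : Set (Fin 4)} (w : G) (h : ∀ i ∈ J, 0 ≤ co i w) :
    val J (mo w h) = single w 1 := rfl

/-- `f_i = Y_{i+1} Y_{i+2}² Y_{i+3}`. -/
noncomputable def ff (J : Set (Fin 4)) (i : Fin 4) : Ax J := mo (fw i) fun j _ => co_fw_nonneg i j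

@[simp] theorem val_ff (J : Set (Fin 4)) (i : Fin 4) : val J (ff J i) = single (fw i) 1 := rfl

/-- `Y_i Y_{i+1}`. -/
noncomputable def ed (J : Set (Fin 4)) (i : Fin 4) : Ax J := mo (edw i) fun j _ => co_edw_nonneg i j

@[simp] theorem val_ed (J : Set (Fin 4)) (i : Fin 4) : val J (ed J i) = single (edw i) 1 := rfl

/-- The function `z - z_i`. -/
noncomputable def zl (J : Set (Fin 4)) (i : Fin 4) : Ax J :=
  sg 0 (lin i) (Cond.of_nonneg (fun i _ => by rw [co_zero]) _)

@[simp] theorem val_zl (J : Set (Fin 4)) (i : Fin 4) : val J (zl J i) = single 0 (lin i) := rfl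

theorem zl_sub_zl (J : Set (Fin 4)) (a b : Fin 4) :
    zl J a - zl J b = algebraMap ℂ (Ax J) (zv b - zv a) := by
  apply Ax_ext
  rw [map_sub, AlgHom.commutes, AddMonoidAlgebra.coe_algebraMap]
  simp [lin, ← single_sub]

theorem ff_eq (J : Set (Fin 4)) (i : Fin 4) : ff J i = ed J (i + 1) * ed J (i + 2) := by
  apply Ax_ext
  rw [map_mul, val_ff, val_ed, val_ed, single_mul_single, one_mul]
  congr 1
  fin_cases i <;> rfl

theorem cond_XX (k : Fin 4) : Cond Set.univ (-(2 • edw k)) (lin k * lin (k + 1)) := by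
  intro j _
  have hk : kap (co j (-(2 • edw k))) = if j = k ∨ j = k + 1 then 1 else 0 := by
    rw [co_neg, co_nsmul]
    revert k j
    decide
  rw [hk]
  split_ifs with h
  · rw [pow_one]
    rcases h with rfl | rfl
    · exact dvd_mul_right _ _
    · exact dvd_mul_left _ _
  · rw [pow_zero]; exact one_dvd _

theorem zl_mem_of_ed_mem {P : Ideal (Ax Set.univ)} (hP : P.IsPrime) {k : Fin 4}
    (h : ed Set.univ k ∈ P) : zl Set.univ k ∈ P ∨ zl Set.univ (k + 1) ∈ P := by
  apply hP.mem_or_mem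
  have h1 : zl Set.univ k * zl Set.univ (k + 1) =
      sg (-(2 • edw k)) (lin k * lin (k + 1)) (cond_XX k) * ed Set.univ k * ed Set.univ k := by
    apply Ax_ext
    simp only [map_mul, val_zl, val_sg, val_ed, single_mul_single, mul_one]
    congr 1
    rw [two_nsmul]; abel
  rw [h1]
  exact P.mul_mem_left _ h

theorem zl_not_both {P : Ideal (Ax Set.univ)} (hP : P.IsPrime) {a b : Fin 4} (hab : a ≠ b)
    (ha : zl Set.univ a ∈ P) (hb : zl Set.univ b ∈ P) : False := by
  have h1 := P.sub_mem ha hb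
  rw [zl_sub_zl] at h1
  have h2 : zv b - zv a ≠ 0 := sub_ne_zero.mpr fun h => hab (zv_injective h.symm)
  have h3 : IsUnit (algebraMap ℂ (Ax Set.univ) (zv b - zv a)) :=
    (IsUnit.mk0 _ h2).map (algebraMap ℂ (Ax Set.univ))
  exact hP.ne_top (Ideal.eq_top_of_isUnit_mem _ h1 h3)

theorem comb_aux {e z : Fin 4 → Prop} (h : ∀ i : Fin 4, e (i + 1) ∨ e (i + 2))
    (hz : ∀ k, e k → z k ∨ z (k + 1)) (hn : ∀ a b, a ≠ b → z a → z b → False) : False := by
  have r : ∀ k : Fin 4, k ≠ k + 2 ∧ k ≠ k + 2 + 1 ∧ k + 1 ≠ k + 2 ∧ k + 1 ≠ k + 2 + 1 := by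
    decide
  have key : ∀ k : Fin 4, e k → e (k + 2) → False := by
    intro k h1 h2
    obtain ⟨r1, r2, r3, r4⟩ := r k
    rcases hz _ h1 with h3 | h3 <;> rcases hz _ h2 with h4 | h4
    · exact hn _ _ r1 h3 h4
    · exact hn _ _ r2 h3 h4
    · exact hn _ _ r3 h3 h4
    · exact hn _ _ r4 h3 h4
  have k0 : e 0 → e 2 → False := key 0
  have k1 : e 1 → e 3 → False := key 1
  have h0 : e 1 ∨ e 2 := h 0
  have h1 : e 2 ∨ e 3 := h 1
  have h2 : e 3 ∨ e 0 := h 2
  have h3 : e 0 ∨ e 1 := h 3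
  by_cases c0 : e 0
  · have c2 : ¬ e 2 := fun c => k0 c0 c
    exact k1 (h0.resolve_right c2) (h1.resolve_left c2)
  · exact k1 (h3.resolve_left c0) (h2.resolve_right c0)

theorem span_ff : Ideal.span (Set.range (ff Set.univ)) = ⊤ := by
  by_contra hne
  obtain ⟨P, hmax, hle⟩ := Ideal.exists_le_maximal _ hne
  have hP := hmax.isPrime
  refine comb_aux (e := fun i => ed Set.univ i ∈ P) (z := fun i => zl Set.univ i ∈ P) ?_ ?_ ?_
  · intro i
    apply hP.mem_or_mem
    rw [← ff_eq]
    exact hle (Ideal.subset_span ⟨i, rfl⟩)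
  · intro k hk
    exact zl_mem_of_ed_mem hP hk
  · intro a b hab ha hb
    exact zl_not_both hP hab ha hb

/-- The coordinates of the chart `i`. -/
def aw (i : Fin 4) : Fin 4 → G
  | 0 => 2 • edw (i + 1) - 2 • edw i
  | 1 => edw i
  | 2 => edw (i + 1)
  | 3 => edw (i + 2)

/-- The coefficient of the coordinate functions of the chart `i`. -/
noncomputable def ap (i : Fin 4) : Fin 4 → ℂ[X]
  | 0 => lin i
  | 1 => 1
  | 2 => 1
  | 3 => 1

theorem cond_al (i k : Fin 4) : Cond {i} (aw i k) (ap i k) := by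
  intro j hj
  rw [Set.mem_singleton_iff] at hj
  subst hj
  have hk : kap (co j (aw j k)) = if k = 0 then 1 else 0 := by
    revert j k
    decide
  rw [hk]
  split_ifs with h
  · subst h
    rw [pow_one]
    exact dvd_refl _
  · rw [pow_zero]; exact one_dvd _

/-- The coordinate functions of the chart `i`. -/
noncomputable def al (i k : Fin 4) : Ax {i} := sg (aw i k) (ap i k) (cond_al i k)

/-- The weight of a monomial in the chart coordinates. -/
def wt (i : Fin 4) (m : Fin 4 →₀ ℕ) : G :=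
  m 0 • aw i 0 + m 1 • aw i 1 + m 2 • aw i 2 + m 3 • aw i 3

theorem co_aw (i : Fin 4) :
    (co i (aw i 0) = -2 ∧ co i (aw i 1) = 1 ∧ co i (aw i 2) = 0 ∧ co i (aw i 3) = 0) ∧
    (co (i + 1) (aw i 0) = 0 ∧ co (i + 1) (aw i 1) = 1 ∧ co (i + 1) (aw i 2) = 1 ∧
      co (i + 1) (aw i 3) = 0) ∧
    (co (i + 3) (aw i 0) = 0 ∧ co (i + 3) (aw i 1) = 0 ∧ co (i + 3) (aw i 2) = 0 ∧
      co (i + 3) (aw i 3) = 1) := by
  revert i
  decide

theorem co_wt (i : Fin 4) (m : Fin 4 →₀ ℕ) :
    co i (wt i m) = m 1 - 2 * m 0 ∧ co (i + 1) (wt i m) = m 1 + m 2 ∧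
      co (i + 3) (wt i m) = m 3 := by
  obtain ⟨⟨a0, a1, a2, a3⟩, ⟨b0, b1, b2, b3⟩, ⟨c0, c1, c2, c3⟩⟩ := co_aw i
  simp only [wt, co_add, co_nsmul, a0, a1, a2, a3, b0, b1, b2, b3, c0, c1, c2, c3]
  refine ⟨?_, ?_, ?_⟩ <;> ring

theorem G_ext_co3 (i : Fin 4) {v w : G} (h0 : co i v = co i w) (h1 : co (i + 1) v = co (i + 1) w)
    (h3 : co (i + 3) v = co (i + 3) w) : v = w := by
  have hv := co_rel v
  have hw := co_rel w
  fin_cases i
  · have g0 : co 0 v = co 0 w := h0
    have g1 : co 1 v = co 1 w := h1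
    have g3 : co 3 v = co 3 w := h3
    have g2 : co 2 v = co 2 w := by omega
    exact G_ext_co fun j => by fin_cases j <;> assumption
  · have g0 : co 1 v = co 1 w := h0
    have g1 : co 2 v = co 2 w := h1
    have g3 : co 0 v = co 0 w := h3
    have g2 : co 3 v = co 3 w := by omega
    exact G_ext_co fun j => by fin_cases j <;> assumption
  · have g0 : co 2 v = co 2 w := h0
    have g1 : co 3 v = co 3 w := h1
    have g3 : co 1 v = co 1 w := h3
    have g2 : co 0 v = co 0 w := by omega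
    exact G_ext_co fun j => by fin_cases j <;> assumption
  · have g0 : co 3 v = co 3 w := h0
    have g1 : co 0 v = co 0 w := h1
    have g3 : co 2 v = co 2 w := h3
    have g2 : co 1 v = co 1 w := by omega
    exact G_ext_co fun j => by fin_cases j <;> assumption

theorem wt_inj (i : Fin 4) {m m' : Fin 4 →₀ ℕ} (h0 : m 0 = m' 0) (h : wt i m = wt i m') :
    m = m' := by
  obtain ⟨h1, h2, h3⟩ := co_wt i m
  obtain ⟨h1', h2', h3'⟩ := co_wt i m'
  rw [h] at h1 h2 h3
  ext k
  fin_cases k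
  · exact h0
  · have : (m 1 : ℤ) = m' 1 := by omega
    exact_mod_cast this
  · have : (m 2 : ℤ) = m' 2 := by omega
    exact_mod_cast this
  · have : (m 3 : ℤ) = m' 3 := by omega
    exact_mod_cast this

theorem val_aeval_monomial (i : Fin 4) (m : Fin 4 →₀ ℕ) (c : ℂ) :
    val {i} (MvPolynomial.aeval (al i) (MvPolynomial.monomial m c)) =
      single (wt i m) (C c * lin i ^ m 0) := by
  rw [MvPolynomial.aeval_monomial, Finsupp.prod_fintype _ _ (by simp), Fin.prod_univ_four]
  simp only [map_mul, map_pow, AlgHom.commutes, al, val_sg, single_pow, single_mul_single,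
    AddMonoidAlgebra.coe_algebraMap, Function.comp_apply, ap, one_pow, mul_one]
  rw [zero_add, wt, Polynomial.algebraMap_apply]
  rfl

theorem aeval_al_injective (i : Fin 4) : Function.Injective (MvPolynomial.aeval (al i)
    : MvPolynomial (Fin 4) ℂ →ₐ[ℂ] Ax {i}) := by
  classical
  rw [injective_iff_map_eq_zero]
  intro P hP
  ext m
  rw [MvPolynomial.coeff_zero]
  have h1 : val {i} (MvPolynomial.aeval (al i) P) = 0 := by rw [hP, map_zero]
  rw [MvPolynomial.as_sum P, map_sum, map_sum] at h1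
  simp only [val_aeval_monomial] at h1
  have h2 := congrArg (fun f : L => f.coeff (wt i m)) h1
  simp only [AddMonoidAlgebra.coeff_sum, coeff_single, Finsupp.finsetSum_apply,
    AddMonoidAlgebra.coeff_zero, Finsupp.zero_apply] at h2
  have h3 := congrArg (fun p : ℂ[X] => (taylor (zv i) p).coeff (m 0)) h2
  simp only [map_sum, finsetSum_coeff, map_zero, Polynomial.coeff_zero] at h3
  rw [Finset.sum_eq_single m] at h3
  · have h4 : taylor (zv i) (C (MvPolynomial.coeff m P) * lin i ^ m 0) =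
        C (MvPolynomial.coeff m P) * X ^ m 0 := by
      simp [taylor_apply, lin]
    rw [Finsupp.single_eq_same, h4, coeff_C_mul, coeff_X_pow_self, mul_one] at h3
    exact h3
  · intro m' _ hm'
    rw [Finsupp.single_apply]
    split_ifs with h
    · have hne : m 0 ≠ m' 0 := fun h0 => hm' (wt_inj i h0.symm h)
      have h4 : taylor (zv i) (C (MvPolynomial.coeff m' P) * lin i ^ m' 0) =
          C (MvPolynomial.coeff m' P) * X ^ m' 0 := by
        simp [taylor_apply, lin]
      rw [h4, coeff_C_mul, coeff_X_pow, if_neg hne, mul_zero]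
    · simp
  · intro hm
    rw [MvPolynomial.notMem_support_iff] at hm
    rw [hm]
    simp

end Pool.Agent.helper89.Flex
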