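import Mathlib

/-!
# Flexibility, algebraic density property, algebraic overshear density property

`A` is the coordinate ring of an affine variety `X` over `ℂ`; points of `X` are the `ℂ`-algebra
homomorphisms `A → ℂ`, algebraic vector fields on `X` are the derivations `Derivation ℂ A A`.
-/

namespace Pool.Agent.helper89.Flex

/-- `D` is a locally nilpotent derivation (LND) of `A`. -/
def IsLND {A : Type*} [CommRing A] [Algebra ℂ A] (D : Derivation ℂ A A) : Prop :=
  ∀ f : A, ∃ n : ℕ, (⇑D)^[n] f = 0

/-- The algebraic overshear vector fields `f • Θ`, with `Θ` an LND and `Θ² f = 0`. -/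
def overshearFields (A : Type*) [CommRing A] [Algebra ℂ A] : Set (Derivation ℂ A A) :=
  {v | ∃ (Θ : Derivation ℂ A A) (f : A), IsLND Θ ∧ Θ (Θ f) = 0 ∧ v = f • Θ}

/-- `D` is complete: through every point `x` of `X` there is an integral curve
`γ : ℂ → X` defined for all complex times; `γ' = D ∘ γ` is tested on all regular functions `f`. -/
def IsCompleteField {A : Type*} [CommRing A] [Algebra ℂ A] (D : Derivation ℂ A A) : Prop :=
  ∀ x : A →ₐ[ℂ] ℂ, ∃ γ : ℂ → (A →ₐ[ℂ] ℂ), γ 0 = x ∧
    ∀ (t : ℂ) (f : A), HasDerivAt (fun s : ℂ => γ s f) (γ t (D f)) t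

/-- `X` has the algebraic overshear density property: the Lie algebra generated by the algebraic
overshear vector fields is the Lie algebra of all algebraic vector fields. -/
def HasAOSD (A : Type*) [CommRing A] [Algebra ℂ A] : Prop :=
  LieSubalgebra.lieSpan ℂ (Derivation ℂ A A) (overshearFields A) = ⊤

/-- `X` has the algebraic density property: the Lie algebra generated by the complete algebraic
vector fields is the Lie algebra of all algebraic vector fields. -/
def HasAD (A : Type*) [CommRing A] [Algebra ℂ A] : Prop :=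
  LieSubalgebra.lieSpan ℂ (Derivation ℂ A A) {D | IsCompleteField D} = ⊤

/-- The tangent space of `X` at the point `x`: all `ℂ`-linear `δ : A → ℂ` with
`δ (f g) = f(x) δ(g) + g(x) δ(f)`. -/
def IsTangentVector {A : Type*} [CommRing A] [Algebra ℂ A] (x : A →ₐ[ℂ] ℂ) (δ : A →ₗ[ℂ] ℂ) :
    Prop :=
  ∀ f g : A, δ (f * g) = x f * δ g + x g * δ f

/-- `X` is flexible: at every point `x` the values at `x` of the LNDs span the tangent space
`T_x X`. -/
def IsFlexible (A : Type*) [CommRing A] [Algebra ℂ A] : Prop :=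
  ∀ (x : A →ₐ[ℂ] ℂ) (δ : A →ₗ[ℂ] ℂ), IsTangentVector x δ →
    δ ∈ Submodule.span ℂ
      {η : A →ₗ[ℂ] ℂ | ∃ Θ : Derivation ℂ A A, IsLND Θ ∧ η = x.toLinearMap ∘ₗ Θ.toLinearMap}

end Pool.Agent.helper89.Flex
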