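import Pool.Agent.helper89.Flex.Ring

/-!
# Homogeneous derivations of `As J`
-/

namespace Pool.Agent.helper89.Flex

open Polynomial AddMonoidAlgebra

/-- The linear map `single w p ↦ single (w + e) (l w • p + q * p')`. -/
noncomputable def derLin (e : G) (l : G →+ ℂ) (q : ℂ[X]) : L →ₗ[ℂ] L :=
  (Finsupp.lsum ℂ fun w : G => (AddMonoidAlgebra.lsingle (w + e) : ℂ[X] →ₗ[ℂ] L) ∘ₗ
    (l w • LinearMap.id + (LinearMap.mulLeft ℂ q) ∘ₗ Polynomial.derivative)) ∘ₗ
      (coeffLinearEquiv ℂ).toLinearMap

@[simp] theorem derLin_single (e : G) (l : G →+ ℂ) (q : ℂ[X]) (w : G) (p : ℂ[X]) :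
    derLin e l q (single w p) = single (w + e) (l w • p + q * derivative p) := by
  simp [derLin]

theorem derLin_leibniz (e : G) (l : G →+ ℂ) (q : ℂ[X]) (a b : L) :
    derLin e l q (a * b) = a • derLin e l q b + b • derLin e l q a := by
  simp only [smul_eq_mul]
  induction a using AddMonoidAlgebra.induction_linear with
  | zero => simp
  | add x y hx hy => simp only [add_mul, mul_add, map_add, hx, hy]; ring
  | single v p =>
    induction b using AddMonoidAlgebra.induction_linear with
    | zero => simp
    | add x y hx hy => simp only [add_mul, mul_add, map_add, hx, hy]; ring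
    | single w r =>
      simp only [single_mul_single, derLin_single]
      have h1 : v + (w + e) = v + w + e := by abel
      have h2 : w + (v + e) = v + w + e := by abel
      rw [h1, h2, ← single_add]
      congr 1
      rw [map_add, derivative_mul]
      simp only [smul_eq_C_mul, map_add]
      ring

/-- The derivation `single w p ↦ single (w + e) (l w • p + q * p')` of `L`. -/
noncomputable def derL (e : G) (l : G →+ ℂ) (q : ℂ[X]) : Derivation ℂ L L :=
  Derivation.mk' (derLin e l q) (derLin_leibniz e l q)

@[simp] theorem derL_single (e : G) (l : G →+ ℂ) (q : ℂ[X]) (w : G) (p : ℂ[X]) :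
    derL e l q (single w p) = single (w + e) (l w • p + q * derivative p) :=
  derLin_single e l q w p

/-- The derivation preserves `As J`. -/
def Pres (J : Set (Fin 4)) (e : G) (l : G →+ ℂ) (q : ℂ[X]) : Prop :=
  ∀ w p, Cond J w p → Cond J (w + e) (l w • p + q * derivative p)

theorem derL_mem {J : Set (Fin 4)} {e : G} {l : G →+ ℂ} {q : ℂ[X]} (h : Pres J e l q)
    (a : Ax J) : derL e l q (val J a) ∈ As J := by
  induction a using Ax_induction with
  | h0 => simp
  | hadd a b ha hb =>
    rw [map_add, map_add]
    exact add_mem ha hb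
  | hs w p hp =>
    rw [val_sg, derL_single]
    exact single_mem_As.mpr (h w p hp)

/-- The restriction to `Ax J` of a homogeneous derivation of `L`, as a linear map. -/
noncomputable def derALin {J : Set (Fin 4)} (e : G) (l : G →+ ℂ) (q : ℂ[X]) (h : Pres J e l q) :
    Ax J →ₗ[ℂ] Ax J where
  toFun a := mkA (derL e l q (val J a)) (derL_mem h a)
  map_add' a b := Ax_ext (by simp)
  map_smul' c a := Ax_ext (by simp)

/-- The restriction to `Ax J` of a homogeneous derivation of `L`. -/
noncomputable def derA {J : Set (Fin 4)} (e : G) (l : G →+ ℂ) (q : ℂ[X]) (h : Pres J e l q) :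
    Derivation ℂ (Ax J) (Ax J) :=
  Derivation.mk' (derALin e l q h) (fun a b => Ax_ext (by simp [derALin, Derivation.leibniz]))

@[simp] theorem val_derA {J : Set (Fin 4)} (e : G) (l : G →+ ℂ) (q : ℂ[X]) (h : Pres J e l q)
    (a : Ax J) : val J (derA e l q h a) = derL e l q (val J a) := rfl

theorem derA_sg {J : Set (Fin 4)} (e : G) (l : G →+ ℂ) (q : ℂ[X]) (h : Pres J e l q)
    (w : G) (p : ℂ[X]) (hp : Cond J w p) :
    derA e l q h (sg w p hp) = sg (w + e) (l w • p + q * derivative p) (h w p hp) :=
  Ax_ext (by simp)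

theorem val_iterate_derA {J : Set (Fin 4)} (e : G) (l : G →+ ℂ) (q : ℂ[X]) (h : Pres J e l q)
    (n : ℕ) (a : Ax J) : val J ((⇑(derA e l q h))^[n] a) = (⇑(derL e l q))^[n] (val J a) := by
  induction n generalizing a with
  | zero => rfl
  | succ n ih => rw [Function.iterate_succ_apply, ih, Function.iterate_succ_apply, val_derA]

theorem isLND_of_gens {J : Set (Fin 4)} (D : Derivation ℂ (Ax J) (Ax J))
    (h : ∀ w p (hp : Cond J w p), ∃ n : ℕ, (⇑D)^[n] (sg w p hp) = 0) : IsLND D := by
  intro a
  induction a using Ax_induction with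
  | h0 => exact ⟨0, rfl⟩
  | hadd a b ha hb =>
    obtain ⟨m, hm⟩ := ha
    obtain ⟨n, hn⟩ := hb
    refine ⟨m + n, ?_⟩
    rw [iterate_add', iterate_eq_zero_of_le D hm (Nat.le_add_right m n),
      iterate_eq_zero_of_le D hn (Nat.le_add_left n m), add_zero]
  | hs w p hp => exact h w p hp

/-- Derivations of `Ax J` are determined by their values on homogeneous elements. -/
theorem der_ext {J : Set (Fin 4)} {D D' : Derivation ℂ (Ax J) (Ax J)}
    (h : ∀ w p (hp : Cond J w p), D (sg w p hp) = D' (sg w p hp)) : D = D' := by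
  ext a
  induction a using Ax_induction with
  | h0 => simp
  | hadd a b ha hb => rw [map_add, map_add, ha, hb]
  | hs w p hp => rw [h w p hp]

end Pool.Agent.helper89.Flex
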