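import Pool.Agent.helper89.Flex.Der

/-!
# The vector fields of the example
-/

namespace Pool.Agent.helper89.Flex

open Polynomial AddMonoidAlgebra

/-- The weight of the field `E_i`. -/
def ew : Fin 4 → G
  | 0 => mk 4 (-1) 2
  | 1 => mk 4 2 (-1)
  | 2 => mk 4 5 2
  | 3 => mk 4 2 5

/-- The weight `(2,2,2,2)` of the field `D_0`. -/
def dw : G := mk 4 2 2

/-- The weight `(1,1,1,1)`. -/
def ow : G := mk 2 1 1

/-- The weight of the function `f_i = Y_{i+1} Y_{i+2}² Y_{i+3}`. -/
def fw : Fin 4 → G
  | 0 => mk 2 0 1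
  | 1 => mk 2 1 0
  | 2 => mk 2 2 1
  | 3 => mk 2 1 2

/-- The weight of the function `Y_i Y_{i+1}`. -/
def edw : Fin 4 → G
  | 0 => mk 1 1 1
  | 1 => mk 1 0 1
  | 2 => mk 1 0 0
  | 3 => mk 1 1 0

theorem co_ew_self (i : Fin 4) : co i (ew i) = -1 := by fin_cases i <;> rfl
theorem co_ew_ne {i j : Fin 4} (h : j ≠ i) : 2 ≤ co j (ew i) := by
  fin_cases i <;> fin_cases j <;> first | exact absurd rfl h | decide

theorem co_dw (i : Fin 4) : co i dw = 2 := by fin_cases i <;> rfl
theorem co_ow (i : Fin 4) : co i ow = 1 := by fin_cases i <;> rfl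
theorem co_fw_self (i : Fin 4) : co i (fw i) = 0 := by fin_cases i <;> rfl
theorem co_fw_ne {i j : Fin 4} (h : j ≠ i) : 1 ≤ co j (fw i) := by
  fin_cases i <;> fin_cases j <;> first | exact absurd rfl h | decide
theorem co_fw_nonneg (i j : Fin 4) : 0 ≤ co j (fw i) := by
  fin_cases i <;> fin_cases j <;> decide
theorem co_edw_nonneg (i j : Fin 4) : 0 ≤ co j (edw i) := by
  fin_cases i <;> fin_cases j <;> decide
theorem ow_add_ew (i : Fin 4) : ow + ew i = 3 • fw i := by fin_cases i <;> rfl

/-- The coordinates as complex valued additive maps. -/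
noncomputable def cl (i : Fin 4) : G →+ ℂ := (Int.castAddHom ℂ).comp (coHom i)

theorem cl_apply (i : Fin 4) (w : G) : cl i w = (co i w : ℂ) := rfl

theorem pres_E (J : Set (Fin 4)) (i : Fin 4) : Pres J (ew i) (cl i) (C 2 * lin i) := by
  intro w p hp j hj
  have hpj := hp j hj
  have hder := Polynomial.pow_sub_one_dvd_derivative_of_pow_dvd hpj
  by_cases hji : j = i
  · subst hji
    rw [co_add, co_ew_self]
    obtain ⟨r, hr⟩ := hpj
    set k := kap (co j w) with hk
    have hspec := kap_spec (co j w)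
    rw [← hk] at hspec
    rcases eq_or_lt_of_le hspec with h0 | h0
    · -- `u + 2k = 0`
      have h1 : kap (co j w + -1) ≤ k + 1 := by rw [kap_le_iff]; push_cast; omega
      refine (pow_dvd_pow _ h1).trans ?_
      refine ⟨C 2 * derivative r, ?_⟩
      have h2 : (cl j w : ℂ) = -(2 * k : ℂ) := by
        rw [cl_apply]
        have : co j w = -(2 * k : ℤ) := by omega
        rw [this]; push_cast; ring
      rw [h2, hr, derivative_mul, derivative_pow, derivative_lin, smul_eq_C_mul]
      rcases k with _ | k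
      · simp; ring
      · simp only [Nat.add_sub_cancel, map_neg, map_mul, map_natCast]
        push_cast
        ring
    · have h1 : kap (co j w + -1) ≤ k := by rw [kap_le_iff]; omega
      refine (pow_dvd_pow _ h1).trans (dvd_add ?_ ?_)
      · rw [smul_eq_C_mul, hr]
        exact (dvd_mul_right _ _).mul_left _
      · rcases Nat.eq_zero_or_pos k with hk0 | hk0
        · rw [hk0, pow_zero]; exact one_dvd _
        · have : lin j ^ k = lin j * lin j ^ (k - 1) := by
            rw [← pow_succ', Nat.sub_add_cancel hk0]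
          rw [this, mul_assoc]
          exact (mul_dvd_mul_left _ hder).mul_left _
  · have h2 := co_ew_ne hji
    have h1 : kap (co j (w + ew i)) ≤ kap (co j w) - 1 := by
      rw [co_add]; unfold kap; omega
    refine (pow_dvd_pow _ h1).trans (dvd_add ?_ ?_)
    · rw [smul_eq_C_mul]
      exact ((pow_dvd_pow _ (Nat.sub_le _ _)).trans hpj).mul_left _
    · exact hder.mul_left _

theorem pres_D (J : Set (Fin 4)) : Pres J dw 0 1 := by
  intro w p hp j hj
  have hder := Polynomial.pow_sub_one_dvd_derivative_of_pow_dvd (hp j hj)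
  have h1 : kap (co j (w + dw)) ≤ kap (co j w) - 1 := by
    rw [co_add, co_dw]; unfold kap; omega
  rw [AddMonoidHom.zero_apply, zero_smul, zero_add, one_mul]
  exact (pow_dvd_pow _ h1).trans hder

theorem pres_T (J : Set (Fin 4)) (l : G →+ ℂ) : Pres J 0 l 0 := by
  intro w p hp
  rw [add_zero, zero_mul, add_zero]
  exact hp.smul _

/-- The locally nilpotent field `E_i = χ^{e_i}(ε_i + 2 (z - z_i) ∂_z)`. -/
noncomputable def E (J : Set (Fin 4)) (i : Fin 4) : Derivation ℂ (Ax J) (Ax J) :=
  derA (ew i) (cl i) (C 2 * lin i) (pres_E J i)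

/-- The locally nilpotent field `D_0 = χ^{(2,2,2,2)} ∂_z`. -/
noncomputable def D0 (J : Set (Fin 4)) : Derivation ℂ (Ax J) (Ax J) :=
  derA dw 0 1 (pres_D J)

/-- The infinitesimal torus action with weights `l`. -/
noncomputable def T (J : Set (Fin 4)) (l : G →+ ℂ) : Derivation ℂ (Ax J) (Ax J) :=
  derA 0 l 0 (pres_T J l)

theorem iterate_zero_L (D : Derivation ℂ L L) (n : ℕ) : (⇑D)^[n] 0 = 0 := iterate_zero D n

theorem E_nilp_aux (i : Fin 4) (j m : ℕ) : ∀ (w : G) (c : ℂ), co i w + 2 * j = m →
    (⇑(derL (ew i) (cl i) (C 2 * lin i)))^[m + 1] (single w (C c * lin i ^ j)) = 0 := by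
  have step : ∀ (w : G) (c : ℂ), derL (ew i) (cl i) (C 2 * lin i) (single w (C c * lin i ^ j)) =
      single (w + ew i) (C (((co i w + 2 * j : ℤ) : ℂ) * c) * lin i ^ j) := by
    intro w c
    rw [derL_single]
    congr 1
    rw [derivative_mul, derivative_C, derivative_pow, derivative_lin, smul_eq_C_mul, cl_apply]
    push_cast
    simp only [map_mul, map_add]
    rcases j with _ | j
    · simp
    · simp only [Nat.add_sub_cancel, map_natCast]
      push_cast
      ring
  induction m with
  | zero =>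
    intro w c h
    rw [zero_add, Function.iterate_one, step, h]
    simp
  | succ m ih =>
    intro w c h
    rw [Function.iterate_succ_apply, step, ih]
    rw [co_add, co_ew_self]
    push_cast at h
    omega

theorem E_nilp (i : Fin 4) (k : ℕ) (r : ℂ[X]) : ∀ (w : G), 0 ≤ co i w + 2 * k →
    ∃ n : ℕ, (⇑(derL (ew i) (cl i) (C 2 * lin i)))^[n] (single w (lin i ^ k * r)) = 0 := by
  have key : ∀ s : ℂ[X], ∀ (w : G), 0 ≤ co i w + 2 * k →
      ∃ n : ℕ, (⇑(derL (ew i) (cl i) (C 2 * lin i)))^[n]
        (single w (lin i ^ k * s.comp (lin i))) = 0 := by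
    intro s
    induction s using Polynomial.induction_on' with
    | add p q hp hq =>
      intro w hw
      obtain ⟨m, hm⟩ := hp w hw
      obtain ⟨n, hn⟩ := hq w hw
      refine ⟨m + n, ?_⟩
      rw [add_comp, mul_add, single_add, iterate_add',
        iterate_eq_zero_of_le _ hm (Nat.le_add_right m n),
        iterate_eq_zero_of_le _ hn (Nat.le_add_left n m), add_zero]
    | monomial n c =>
      intro w hw
      refine ⟨(co i w + 2 * ((k + n : ℕ) : ℤ)).toNat + 1, ?_⟩
      have h1 : lin i ^ k * (monomial n c).comp (lin i) = C c * lin i ^ (k + n) := by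
        rw [← C_mul_X_pow_eq_monomial, mul_comp, C_comp, pow_comp, X_comp, pow_add]
        ring
      rw [h1]
      refine E_nilp_aux i (k + n) _ w c ?_
      push_cast
      omega
  intro w hw
  obtain ⟨n, hn⟩ := key (r.comp (X + C (zv i))) w hw
  refine ⟨n, ?_⟩
  have h2 : (r.comp (X + C (zv i))).comp (lin i) = r := by
    rw [comp_assoc, add_comp, X_comp, C_comp, lin, sub_add_cancel, comp_X]
  rwa [h2] at hn

theorem isLND_E (J : Set (Fin 4)) {i : Fin 4} (hi : i ∈ J) : IsLND (E J i) := by
  refine isLND_of_gens _ fun w p hp => ?_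
  obtain ⟨r, hr⟩ := hp i hi
  obtain ⟨n, hn⟩ := E_nilp i (kap (co i w)) r w (kap_spec _)
  refine ⟨n, val_injective J ?_⟩
  rw [E, val_iterate_derA, val_sg, hr, hn, map_zero]

theorem isLND_D0 (J : Set (Fin 4)) : IsLND (D0 J) := by
  refine isLND_of_gens _ fun w p hp => ?_
  have key : ∀ n : ℕ, ∀ (w : G) (p : ℂ[X]), (⇑(derL dw 0 1))^[n] (single w p) =
      single (w + n • dw) ((⇑(derivative (R := ℂ)))^[n] p) := by
    intro n
    induction n with
    | zero => intro w p; simp
    | succ n ih =>
      intro w p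
      rw [Function.iterate_succ_apply, derL_single, ih, Function.iterate_succ_apply,
        AddMonoidHom.zero_apply, zero_smul, zero_add, one_mul, succ_nsmul', add_assoc]
  refine ⟨p.natDegree + 1, val_injective J ?_⟩
  rw [D0, val_iterate_derA, val_sg, key, iterate_derivative_eq_zero (Nat.lt_succ_self _),
    single_zero, map_zero]

end Pool.Agent.helper89.Flex
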