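import Pool.Agent.helper89.Flex.Gen

/-!
# The example is flexible
-/

namespace Pool.Agent.helper89.Flex

open Polynomial AddMonoidAlgebra

theorem val_E (J : Set (Fin 4)) (i : Fin 4) (a : Ax J) :
    val J (E J i a) = derL (ew i) (cl i) (C 2 * lin i) (val J a) := rfl

theorem val_D0 (J : Set (Fin 4)) (a : Ax J) :
    val J (D0 J a) = derL dw 0 1 (val J a) := rfl

theorem val_T (J : Set (Fin 4)) (l : G →+ ℂ) (a : Ax J) :
    val J (T J l a) = derL 0 l 0 (val J a) := rfl

/-- The monomial `χ^{(1,1,1,1) + e_i}`, equal to `f_i³`. -/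
theorem ow_ew_nonneg (i j : Fin 4) : 0 ≤ co j (ow + ew i) := by
  rw [ow_add_ew, co_nsmul]
  have := co_fw_nonneg i j
  positivity

theorem ff_pow (i : Fin 4) :
    (mo (ow + ew i) (fun j _ => ow_ew_nonneg i j) : A) = ff Set.univ i ^ 3 := by
  apply Ax_ext
  rw [map_pow, val_ff, val_mo, single_pow, one_pow, ow_add_ew]

theorem E_pp (i : Fin 4) : E Set.univ i pp = ff Set.univ i ^ 3 := by
  rw [← ff_pow]
  apply Ax_ext
  rw [val_E, val_pp, derL_single, val_mo, cl_apply, co_ow, derivative_one, mul_zero, add_zero]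
  simp

theorem E_ff_pow (i : Fin 4) (n : ℕ) : E Set.univ i (ff Set.univ i ^ n) = 0 := by
  have h1 : E Set.univ i (ff Set.univ i) = 0 := by
    apply Ax_ext
    rw [val_E, val_ff, derL_single, cl_apply, co_fw_self, derivative_one, mul_zero, add_zero]
    simp
  rw [Derivation.leibniz_pow, h1]
  simp

section point
variable (x : A →ₐ[ℂ] ℂ)

/-- Tangent vectors vanishing on the generators vanish where `p ≠ 0`. -/
theorem tangent_eq_zero (hx : x pp ≠ 0) (δ : A →ₗ[ℂ] ℂ) (hδ : IsTangentVector x δ)
    (hz : δ zz = 0) (he : ∀ i, δ (ed Set.univ i) = 0) : δ = 0 := by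
  have h1 : δ 1 = 0 := by
    have := hδ 1 1
    rw [mul_one, map_one x, one_mul] at this
    linear_combination -this
  let K : Subalgebra ℂ A :=
    { carrier := {a | δ a = 0}
      mul_mem' := by
        intro a b ha hb
        change δ (a * b) = 0
        rw [hδ, show δ a = 0 from ha, show δ b = 0 from hb]
        simp
      add_mem' := by
        intro a b ha hb
        change δ (a + b) = 0
        rw [map_add, show δ a = 0 from ha, show δ b = 0 from hb, add_zero]
      algebraMap_mem' := fun c => by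
        change δ (algebraMap ℂ A c) = 0
        rw [Algebra.algebraMap_eq_smul_one, map_smul, h1, smul_zero] }
  have hmem : ∀ a : A, a ∈ K ↔ δ a = 0 := fun _ => Iff.rfl
  ext a
  obtain ⟨N, hN⟩ := gen_upto K hz he a
  have hpp : pp ∈ K := by rw [pp_eq 0]; exact K.mul_mem (he _) (he _)
  have h1 := (hmem _).mp hN
  have h2 := (hmem _).mp (K.pow_mem hpp N)
  rw [hδ, h2, mul_zero, add_zero, map_pow] at h1
  exact (mul_eq_zero.mp h1).resolve_left (pow_ne_zero N hx)

theorem isTangent_comp (Θ : Derivation ℂ A A) :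
    IsTangentVector x (x.toLinearMap ∘ₗ Θ.toLinearMap) := by
  intro f g
  simp [Derivation.leibniz]

/-- Flexibility at the points where `p ≠ 0`. -/
theorem flex_of_pp (hx : x pp ≠ 0) (δ : A →ₗ[ℂ] ℂ) (hδ : IsTangentVector x δ) :
    δ ∈ Submodule.span ℂ
      {η : A →ₗ[ℂ] ℂ | ∃ Θ : Derivation ℂ A A, IsLND Θ ∧ η = x.toLinearMap ∘ₗ Θ.toLinearMap} := by
  have hed : ∀ i, x (ed Set.univ i) ≠ 0 := by
    intro i h
    apply hx
    rw [pp_eq i, map_mul, h, zero_mul]
  -- the logarithmic derivatives
  set μ : Fin 4 → ℂ := fun i => δ (ed Set.univ i) / x (ed Set.univ i) with hμ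
  have hμ' : ∀ i, δ (ed Set.univ i) = μ i * x (ed Set.univ i) := by
    intro i
    rw [hμ]
    field_simp [hed i]
  have hrel : μ 0 + μ 2 = μ 1 + μ 3 := by
    have e0 : δ pp = (μ 0 + μ 2) * x pp := by
      rw [pp_eq 0, hδ, hμ', hμ', map_mul]
      rw [show (0 : Fin 4) + 2 = 2 from rfl]
      ring
    have e1 : δ pp = (μ 1 + μ 3) * x pp := by
      rw [pp_eq 1, hδ, hμ', hμ', map_mul]
      rw [show (1 : Fin 4) + 2 = 3 from rfl]
      ring
    rw [e0] at e1
    exact mul_right_cancel₀ hx e1
  -- values of the fields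
  set g : Fin 4 → ℂ := fun j => x (ff Set.univ j ^ 3) / x pp with hg
  have hff : ∀ j, x (ff Set.univ j) ≠ 0 := by
    intro j
    rw [ff_eq, map_mul]
    exact mul_ne_zero (hed _) (hed _)
  have hg0 : ∀ j, g j ≠ 0 := fun j => div_ne_zero (by rw [map_pow]; exact pow_ne_zero 3 (hff j)) hx
  have hEed : ∀ j i, x (E Set.univ j (ed Set.univ i)) = co j (edw i) * x (ed Set.univ i) * g j := by
    intro j i
    have h3 : E Set.univ j (ed Set.univ i) * pp =
        (co j (edw i) : ℂ) • (ed Set.univ i * ff Set.univ j ^ 3) := by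
      rw [← ff_pow]
      apply Ax_ext
      rw [map_mul, map_smul, map_mul, val_E, val_ed, val_pp, val_mo, derL_single,
        derivative_one, mul_zero, add_zero, single_mul_single,
        single_mul_single, smul_single, cl_apply]
      congr 1
      · abel
      · rw [mul_one, mul_one]
    have h4 := congrArg x h3
    rw [map_mul, map_smul, map_mul, smul_eq_mul] at h4
    rw [hg]
    field_simp
    linear_combination h4
  have hEz : ∀ j, x (E Set.univ j zz) = 2 * (x (zl Set.univ j)) * g j := by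
    intro j
    have h3 : E Set.univ j zz * pp = (2 : ℂ) • (zl Set.univ j * ff Set.univ j ^ 3) := by
      rw [← ff_pow]
      apply Ax_ext
      rw [map_mul, map_smul, map_mul, val_E, val_zz, val_pp, val_zl, val_mo, derL_single,
        map_zero, zero_smul, derivative_X, single_mul_single, single_mul_single, smul_single,
        smul_eq_C_mul]
      congr 1
      · abel
      · ring
    have h4 := congrArg x h3
    rw [map_mul, map_smul, map_mul, smul_eq_mul] at h4
    rw [hg]
    field_simp
    linear_combination h4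
  have hDz : x (D0 Set.univ zz) = x pp ^ 2 := by
    rw [← map_pow]
    congr 1
    apply Ax_ext
    rw [val_D0, val_zz, derL_single, map_pow, val_pp, single_pow, one_pow, derivative_X,
      AddMonoidHom.zero_apply, zero_smul, zero_add, zero_add, one_mul]
    rfl
  have hDed : ∀ i, x (D0 Set.univ (ed Set.univ i)) = 0 := by
    intro i
    rw [← map_zero x]
    congr 1
    apply Ax_ext
    rw [val_D0, val_ed, derL_single, derivative_one, AddMonoidHom.zero_apply, zero_smul, zero_add,
      mul_zero, single_zero, map_zero]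
  -- the coefficients
  set lam : Fin 4 → ℂ := ![0, μ 0, μ 1 - μ 0, μ 3] with hlam
  have hlam' : ∀ i, ∑ j, lam j * co j (edw i) = μ i := by
    intro i
    rw [Fin.sum_univ_four]
    fin_cases i
    · simp [hlam, co, edw]
    · simp [hlam, co, edw]
    · simp [hlam, co, edw]; linear_combination -hrel
    · simp [hlam, co, edw]
  set c : ℂ := (δ zz - ∑ j, lam j / g j * x (E Set.univ j zz)) / x pp ^ 2 with hc
  set η : A →ₗ[ℂ] ℂ := ∑ j, (lam j / g j) • (x.toLinearMap ∘ₗ (E Set.univ j).toLinearMap) +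
    c • (x.toLinearMap ∘ₗ (D0 Set.univ).toLinearMap) with hη
  have hηmem : η ∈ Submodule.span ℂ
      {η : A →ₗ[ℂ] ℂ | ∃ Θ : Derivation ℂ A A, IsLND Θ ∧ η = x.toLinearMap ∘ₗ Θ.toLinearMap} := by
    refine Submodule.add_mem _ (Submodule.sum_mem _ fun j _ => Submodule.smul_mem _ _
      (Submodule.subset_span ⟨_, isLND_E Set.univ (Set.mem_univ j), rfl⟩))
      (Submodule.smul_mem _ _ (Submodule.subset_span ⟨_, isLND_D0 Set.univ, rfl⟩))
  have hηapp : ∀ a, η a = ∑ j, lam j / g j * x (E Set.univ j a) + c * x (D0 Set.univ a) := by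
    intro a
    simp [hη]
  have hdiff : δ - η = 0 := by
    apply tangent_eq_zero x hx
    · intro a b
      simp only [LinearMap.sub_apply, hηapp, hδ a b, Derivation.leibniz, smul_eq_mul, map_add,
        map_mul, Fin.sum_univ_four]
      ring
    · rw [LinearMap.sub_apply, hηapp, hDz, hc]
      field_simp
      ring
    · intro i
      rw [LinearMap.sub_apply, hηapp, hDed, mul_zero, add_zero]
      have : ∑ j, lam j / g j * x (E Set.univ j (ed Set.univ i)) =
          (∑ j, lam j * co j (edw i)) * x (ed Set.univ i) := by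
        rw [Finset.sum_mul]
        refine Finset.sum_congr rfl fun j _ => ?_
        rw [hEed]
        have := hg0 j
        field_simp
      rw [this, hlam', hμ', sub_self]
  rw [sub_eq_zero.mp hdiff]
  exact hηmem

end point

/-- The example is flexible. -/
theorem flexible_A : IsFlexible A := by
  intro x δ hδ
  by_cases hx : x pp = 0
  swap
  · exact flex_of_pp x hx δ hδ
  obtain ⟨i, hi⟩ : ∃ i, x (ff Set.univ i) ≠ 0 := by
    by_contra hcon
    push Not at hcon
    have h1 : Ideal.span (Set.range (ff Set.univ)) ≤ RingHom.ker x := by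
      rw [Ideal.span_le]
      rintro _ ⟨i, rfl⟩
      exact hcon i
    rw [span_ff] at h1
    have h2 : (1 : A) ∈ RingHom.ker x := h1 trivial
    rw [RingHom.mem_ker, map_one] at h2
    exact one_ne_zero h2
  have hLND := isLND_E Set.univ (Set.mem_univ i)
  set α := expEquiv hLND 1 with hα
  have hpp : x (α pp) ≠ 0 := by
    rw [hα, expEquiv_apply, expAt_eq_sum hLND 1 pp (N := 2)]
    · rw [Finset.sum_range_succ, Finset.sum_range_one, dp_zero, dp_one, E_pp]
      simp only [one_pow, one_smul, map_add, hx, zero_add, map_pow]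
      exact pow_ne_zero 3 hi
    · rw [Function.iterate_succ_apply, Function.iterate_one, E_pp, E_ff_pow]
  have h1 := flex_of_pp (x.comp (α : A →ₐ[ℂ] A)) hpp (δ ∘ₗ α.toLinearMap) (by
    intro f g
    simp [hδ (α f) (α g)])
  set Φ : (A →ₗ[ℂ] ℂ) →ₗ[ℂ] (A →ₗ[ℂ] ℂ) := LinearMap.lcomp ℂ ℂ α.symm.toLinearMap with hΦ
  have h2 : Φ (δ ∘ₗ α.toLinearMap) = δ := by
    ext a
    simp [hΦ]
  rw [← h2]
  have h3 := Submodule.mem_map_of_mem (f := Φ) h1
  rw [Submodule.map_span] at h3
  refine Submodule.span_mono ?_ h3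
  rintro _ ⟨_, ⟨Θ, hΘ, rfl⟩, rfl⟩
  refine ⟨conj α Θ, hΘ.conj α, ?_⟩
  ext a
  simp [hΦ]

end Pool.Agent.helper89.Flex
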