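import Pool.Agent.helper89.Flex.Fields

/-!
# Completeness of the fields `f • ξ` with `ξ` an infinitesimal torus action and `ξ f = 0`
-/

namespace Pool.Agent.helper89.Flex

open Polynomial AddMonoidAlgebra

/-- The torus action `single w p ↦ exp (t l(w)) • single w p` on `L`. -/
noncomputable def flowL (l : G →+ ℂ) (t : ℂ) : L →ₐ[ℂ] L :=
  ((AddMonoidAlgebra.lift ℂ[X] L G
    { toFun := fun w => single (Multiplicative.toAdd w) (C (Complex.exp (t * l (Multiplicative.toAdd w))))
      map_one' := by simp [AddMonoidAlgebra.one_def]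
      map_mul' := by
        intro v w
        rw [single_mul_single, toAdd_mul, map_add, mul_add, Complex.exp_add, C_mul] } :
      L →ₐ[ℂ[X]] L)).restrictScalars ℂ

@[simp] theorem flowL_single (l : G →+ ℂ) (t : ℂ) (w : G) (p : ℂ[X]) :
    flowL l t (single w p) = single w (Complex.exp (t * l w) • p) := by
  rw [flowL, AlgHom.restrictScalars_apply, AddMonoidAlgebra.lift_single]
  simp only [MonoidHom.coe_mk, OneHom.coe_mk, toAdd_ofAdd]
  rw [smul_single, smul_eq_mul, smul_eq_C_mul, mul_comm]

theorem flowL_mem {J : Set (Fin 4)} (l : G →+ ℂ) (t : ℂ) (a : Ax J) :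
    flowL l t (val J a) ∈ As J := by
  induction a using Ax_induction with
  | h0 => simp
  | hadd a b ha hb =>
    rw [map_add, map_add]
    exact add_mem ha hb
  | hs w p hp =>
    rw [val_sg, flowL_single]
    exact single_mem_As.mpr (hp.smul _)

/-- The torus action on `Ax J`. -/
noncomputable def flow (J : Set (Fin 4)) (l : G →+ ℂ) (t : ℂ) : Ax J →ₐ[ℂ] Ax J where
  toFun a := mkA (flowL l t (val J a)) (flowL_mem l t a)
  map_one' := Ax_ext (by simp)
  map_mul' a b := Ax_ext (by simp)
  map_zero' := Ax_ext (by simp)
  map_add' a b := Ax_ext (by simp)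
  commutes' c := Ax_ext (by simp)

theorem flow_sg {J : Set (Fin 4)} (l : G →+ ℂ) (t : ℂ) (w : G) (p : ℂ[X]) (h : Cond J w p) :
    flow J l t (sg w p h) = Complex.exp (t * l w) • sg w p h :=
  Ax_ext (by
    change flowL l t (single w p) = _
    rw [flowL_single, sg_smul, val_sg])

theorem T_sg {J : Set (Fin 4)} (l : G →+ ℂ) (w : G) (p : ℂ[X]) (h : Cond J w p) :
    T J l (sg w p h) = l w • sg w p h := by
  rw [T, derA_sg, sg_smul]
  exact sg_congr _ _ (by simp) (by simp)

theorem coeff_derL_T (l : G →+ ℂ) (f : L) (w : G) :
    (derL 0 l 0 f).coeff w = l w • f.coeff w := by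
  classical
  induction f using AddMonoidAlgebra.induction_linear with
  | zero => simp
  | add x y hx hy => rw [map_add, AddMonoidAlgebra.coeff_add, AddMonoidAlgebra.coeff_add,
      Finsupp.add_apply, Finsupp.add_apply, hx, hy, smul_add]
  | single v p =>
    rw [derL_single, add_zero, zero_mul, add_zero, coeff_single, coeff_single,
      Finsupp.single_apply, Finsupp.single_apply]
    split_ifs with h
    · rw [h]
    · rw [smul_zero]

theorem coeff_flowL (l : G →+ ℂ) (t : ℂ) (f : L) (w : G) :
    (flowL l t f).coeff w = Complex.exp (t * l w) • f.coeff w := by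
  classical
  induction f using AddMonoidAlgebra.induction_linear with
  | zero => simp
  | add x y hx hy => rw [map_add, AddMonoidAlgebra.coeff_add, AddMonoidAlgebra.coeff_add,
      Finsupp.add_apply, Finsupp.add_apply, hx, hy, smul_add]
  | single v p =>
    rw [flowL_single, coeff_single, coeff_single,
      Finsupp.single_apply, Finsupp.single_apply]
    split_ifs with h
    · rw [h]
    · rw [smul_zero]

theorem flow_of_T_eq_zero {J : Set (Fin 4)} (l : G →+ ℂ) (t : ℂ) {f : Ax J}
    (h : T J l f = 0) : flow J l t f = f := by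
  apply Ax_ext
  change flowL l t (val J f) = val J f
  have h1 : derL 0 l 0 (val J f) = 0 := by
    have := congrArg (val J) h
    rwa [T, val_derA, map_zero] at this
  apply AddMonoidAlgebra.ext
  apply Finsupp.ext
  intro w
  rw [coeff_flowL]
  have h2 : l w • (val J f).coeff w = 0 := by
    rw [← coeff_derL_T, h1]; simp
  rcases smul_eq_zero.mp h2 with h3 | h3
  · rw [h3, mul_zero, Complex.exp_zero, one_smul]
  · rw [h3, smul_zero]

/-- Torus fields with invariant coefficients are complete. -/
theorem isComplete_smul_T {J : Set (Fin 4)} (l : G →+ ℂ) {f : Ax J} (h : T J l f = 0) :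
    IsCompleteField (f • T J l) := by
  intro x
  refine ⟨fun t => x.comp (flow J l (t * x f)), ?_, ?_⟩
  · ext a
    simp only [zero_mul, AlgHom.comp_apply]
    congr 1
    apply Ax_ext
    change flowL l 0 (val J a) = val J a
    apply AddMonoidAlgebra.ext
    apply Finsupp.ext
    intro w
    rw [coeff_flowL, zero_mul, Complex.exp_zero, one_smul]
  · intro t a
    simp only [AlgHom.comp_apply, Derivation.smul_apply, smul_eq_mul, map_mul,
      flow_of_T_eq_zero l _ h]
    induction a using Ax_induction with
    | h0 => simpa using hasDerivAt_const t (0 : ℂ)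
    | hadd a b ha hb =>
      have := ha.add hb
      simp only [map_add, mul_add]
      exact this
    | hs w p hp =>
      simp only [T_sg, flow_sg, map_smul, smul_eq_mul]
      have h1 : HasDerivAt (fun s : ℂ => Complex.exp (s * x f * l w) * x (sg w p hp))
          (Complex.exp (t * x f * l w) * (1 * x f * l w) * x (sg w p hp)) t :=
        ((((hasDerivAt_id t).mul_const (x f)).mul_const (l w)).cexp).mul_const _
      convert h1 using 1
      ring

end Pool.Agent.helper89.Flex
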