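import Pool.Agent.helper89.Flex.Smooth
import Pool.Agent.helper89.Flex.Torus

/-!
# Generators up to powers of `p = χ^{(1,1,1,1)}`
-/

namespace Pool.Agent.helper89.Flex

open Polynomial AddMonoidAlgebra

/-- The coordinate ring of the example. -/
abbrev A : Type := Ax Set.univ

/-- The function `z`. -/
noncomputable def zz : A := sg 0 X (Cond.of_nonneg (fun i _ => by rw [co_zero]) _)

/-- The function `p = Y₀Y₁Y₂Y₃`. -/
noncomputable def pp : A := mo ow fun i _ => by rw [co_ow]; norm_num

theorem val_zz : val Set.univ zz = single 0 X := rfl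
theorem val_pp : val Set.univ pp = single ow 1 := rfl

theorem zl_eq (i : Fin 4) : zl Set.univ i = zz - algebraMap ℂ A (zv i) := by
  apply Ax_ext
  rw [map_sub, AlgHom.commutes, AddMonoidAlgebra.coe_algebraMap, val_zz, val_zl]
  simp [lin]

theorem mo_mul {u v : G} (hu : ∀ i ∈ (Set.univ : Set (Fin 4)), 0 ≤ co i u)
    (hv : ∀ i ∈ (Set.univ : Set (Fin 4)), 0 ≤ co i v)
    (huv : ∀ i ∈ (Set.univ : Set (Fin 4)), 0 ≤ co i (u + v)) :
    (mo (u + v) huv : A) = mo u hu * mo v hv := by
  apply Ax_ext
  rw [map_mul, val_mo, val_mo, val_mo, single_mul_single, one_mul]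

theorem pp_eq (i : Fin 4) : pp = ed Set.univ i * ed Set.univ (i + 2) := by
  apply Ax_ext
  rw [map_mul, val_pp, val_ed, val_ed, single_mul_single, one_mul]
  congr 1
  fin_cases i <;> rfl

/-- Monomials with nonnegative exponents are products of the `Y_i Y_{i+1}`. -/
theorem mo_mem (K : Subalgebra ℂ A) (he : ∀ i, ed Set.univ i ∈ K) :
    ∀ (n : ℕ) (u : G) (hu : ∀ i ∈ (Set.univ : Set (Fin 4)), 0 ≤ co i u), gS u = n →
      (mo u hu : A) ∈ K := by
  intro n
  induction n with
  | zero =>
    intro u hu hs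
    have h0 : 0 ≤ gA u := hu 0 trivial
    have h1 : 0 ≤ gB u := hu 1 trivial
    have h2 : 0 ≤ gS u - gA u := hu 2 trivial
    have h3 : 0 ≤ gS u - gB u := hu 3 trivial
    have : u = 0 := G_ext (by rw [hs]; rfl) (by rw [gA_zero]; omega) (by rw [gB_zero]; omega)
    subst this
    have h4 : (mo 0 hu : A) = 1 := Ax_ext (by rw [val_mo, map_one]; rfl)
    rw [h4]
    exact K.one_mem
  | succ n ih =>
    intro u hu hs
    have h0 : 0 ≤ gA u := hu 0 trivial
    have h1 : 0 ≤ gB u := hu 1 trivial
    have h2 : 0 ≤ gS u - gA u := hu 2 trivial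
    have h3 : 0 ≤ gS u - gB u := hu 3 trivial
    push_cast at hs
    obtain ⟨i, hi⟩ : ∃ i : Fin 4, ∀ j : Fin 4, 0 ≤ co j (u - edw i) := by
      by_cases ha : 1 ≤ gA u
      · by_cases hb : 1 ≤ gB u
        · refine ⟨0, fun j => ?_⟩
          rw [co_sub]
          fin_cases j <;> simp [co, edw] <;> omega
        · refine ⟨3, fun j => ?_⟩
          rw [co_sub]
          fin_cases j <;> simp [co, edw] <;> omega
      · by_cases hb : 1 ≤ gB u
        · refine ⟨1, fun j => ?_⟩
          rw [co_sub]
          fin_cases j <;> simp [co, edw] <;> omega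
        · refine ⟨2, fun j => ?_⟩
          rw [co_sub]
          fin_cases j <;> simp [co, edw] <;> omega
    have hs' : gS (u - edw i) = n := by
      have : gS (edw i) = 1 := by fin_cases i <;> rfl
      rw [gS_sub, this, hs]; ring
    have hm : (mo u hu : A) = mo (u - edw i) (fun j _ => hi j) * ed Set.univ i := by
      apply Ax_ext
      rw [map_mul, val_mo, val_mo, val_ed, single_mul_single, one_mul, sub_add_cancel]
    rw [hm]
    exact K.mul_mem (ih _ _ hs') (he i)

theorem poly_mem (K : Subalgebra ℂ A) (hz : zz ∈ K) (r : ℂ[X])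
    (h : Cond Set.univ 0 r) : (sg 0 r h : A) ∈ K := by
  have key : ∀ r : ℂ[X], ∃ h : Cond Set.univ 0 r, (sg 0 r h : A) ∈ K := by
    intro r
    induction r using Polynomial.induction_on' with
    | add p q hp hq =>
      obtain ⟨hp, hp'⟩ := hp
      obtain ⟨hq, hq'⟩ := hq
      refine ⟨hp.add hq, ?_⟩
      rw [← sg_add hp hq]
      exact K.add_mem hp' hq'
    | monomial n c =>
      refine ⟨Cond.of_nonneg (fun i _ => by rw [co_zero]) _, ?_⟩
      have : (sg 0 (monomial n c) (Cond.of_nonneg (fun i _ => by rw [co_zero]) _) : A) =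
          c • zz ^ n := by
        apply Ax_ext
        rw [map_smul, map_pow, val_zz, val_sg, single_pow, nsmul_zero, smul_single,
          ← C_mul_X_pow_eq_monomial, smul_eq_C_mul]
      rw [this]
      exact K.smul_mem (K.pow_mem hz n) c
  obtain ⟨_, h'⟩ := key r
  exact h'

/-- A subalgebra containing `z` and the `Y_i Y_{i+1}` contains a multiple `p^N a` of every `a`. -/
theorem gen_upto (K : Subalgebra ℂ A) (hz : zz ∈ K) (he : ∀ i, ed Set.univ i ∈ K) (a : A) :
    ∃ N : ℕ, pp ^ N * a ∈ K := by
  have hpp : pp ∈ K := by rw [pp_eq 0]; exact K.mul_mem (he _) (he _)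
  induction a using Ax_induction with
  | h0 => exact ⟨0, by simp⟩
  | hadd a b ha hb =>
    obtain ⟨M, hM⟩ := ha
    obtain ⟨N, hN⟩ := hb
    refine ⟨M + N, ?_⟩
    have : pp ^ (M + N) * (a + b) = pp ^ N * (pp ^ M * a) + pp ^ M * (pp ^ N * b) := by
      rw [pow_add]; ring
    rw [this]
    exact K.add_mem (K.mul_mem (K.pow_mem hpp N) hM) (K.mul_mem (K.pow_mem hpp M) hN)
  | hs w p hp =>
    obtain ⟨N, hN⟩ : ∃ N : ℕ, ∀ j : Fin 4, 0 ≤ co j w + N := by
      refine ⟨(|co 0 w| + |co 1 w| + |co 2 w| + |co 3 w|).toNat, fun j => ?_⟩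
      rw [Int.toNat_of_nonneg (by positivity)]
      have h0 := neg_abs_le (co 0 w)
      have h1 := neg_abs_le (co 1 w)
      have h2 := neg_abs_le (co 2 w)
      have h3 := neg_abs_le (co 3 w)
      have g0 := abs_nonneg (co 0 w)
      have g1 := abs_nonneg (co 1 w)
      have g2 := abs_nonneg (co 2 w)
      have g3 := abs_nonneg (co 3 w)
      fin_cases j <;> simp only [Fin.mk_zero, Fin.mk_one, Fin.reduceFinMk] <;> omega
    have hnn : ∀ j ∈ (Set.univ : Set (Fin 4)), 0 ≤ co j (w + N • ow) := by
      intro j _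
      rw [co_add, co_nsmul, co_ow, mul_one]
      exact hN j
    refine ⟨N, ?_⟩
    have h0 : Cond Set.univ 0 p := Cond.of_nonneg (fun i _ => by rw [co_zero]) _
    have : pp ^ N * sg w p hp = sg 0 p h0 * mo (w + N • ow) hnn := by
      apply Ax_ext
      rw [map_mul, map_mul, map_pow, val_pp, val_sg, val_sg, val_mo, single_pow,
        single_mul_single, single_mul_single, one_pow, one_mul, mul_one, zero_add, add_comm]
    rw [this]
    have hS : 0 ≤ gS (w + N • ow) := by
      have h0 := hnn 0 trivial
      have h2 := hnn 2 trivial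
      simp only [co] at h0 h2
      omega
    obtain ⟨n, hn⟩ := Int.eq_ofNat_of_zero_le hS
    exact K.mul_mem (poly_mem K hz p h0) (mo_mem K he n _ hnn hn)

/-- Derivations of `A` are determined by their values at `z` and the `Y_i Y_{i+1}`. -/
theorem der_eq_of_gens {D D' : Derivation ℂ A A} (hz : D zz = D' zz)
    (he : ∀ i, D (ed Set.univ i) = D' (ed Set.univ i)) : D = D' := by
  have key : ∀ F : Derivation ℂ A A, F zz = 0 → (∀ i, F (ed Set.univ i) = 0) → F = 0 := by
    intro F hz he
    let K : Subalgebra ℂ A :=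
      { carrier := {a | F a = 0}
        mul_mem' := by
          intro a b ha hb
          change F (a * b) = 0
          rw [Derivation.leibniz, show F a = 0 from ha, show F b = 0 from hb]
          simp
        add_mem' := by
          intro a b ha hb
          change F (a + b) = 0
          rw [map_add, show F a = 0 from ha, show F b = 0 from hb, add_zero]
        algebraMap_mem' := fun c => F.map_algebraMap c }
    have hmem : ∀ a : A, a ∈ K ↔ F a = 0 := fun _ => Iff.rfl
    ext a
    obtain ⟨N, hN⟩ := gen_upto K hz he a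
    have hpp : pp ∈ K := by rw [pp_eq 0]; exact K.mul_mem (he _) (he _)
    have h1 := (hmem _).mp hN
    have h2 := (hmem _).mp (K.pow_mem hpp N)
    rw [Derivation.leibniz, h2, smul_zero, add_zero, smul_eq_mul] at h1
    have h3 : pp ^ N ≠ 0 := by
      apply pow_ne_zero
      intro h
      have := congrArg (val Set.univ) h
      rw [val_pp, map_zero] at this
      exact one_ne_zero (single_eq_zero.mp this)
    exact (mul_eq_zero.mp h1).resolve_left h3
  have := key (D - D') (by rw [Derivation.sub_apply, hz, sub_self])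
    (fun i => by rw [Derivation.sub_apply, he, sub_self])
  exact sub_eq_zero.mp this

end Pool.Agent.helper89.Flex
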