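import Pool.Agent.helper89.Flex.Flexible

/-!
# Homogeneous elements in kernels of locally nilpotent derivations have nonnegative `s`-weight
-/

namespace Pool.Agent.helper89.Flex

open Polynomial AddMonoidAlgebra

theorem lin_isCoprime {i j : Fin 4} (h : i ≠ j) (m n : ℕ) : IsCoprime (lin i ^ m) (lin j ^ n) := by
  apply IsCoprime.pow
  exact Polynomial.isCoprime_X_sub_C_of_isUnit_sub
    (IsUnit.mk0 _ (sub_ne_zero.mpr fun h' => h (zv_injective h')))

theorem ne_add_one (k : Fin 4) : k ≠ k + 1 := by revert k; decide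

/-- `X_k X_{k+1}`. -/
noncomputable def XX (k : Fin 4) : A := sg (-(2 • edw k)) (lin k * lin (k + 1)) (cond_XX k)

theorem val_XX (k : Fin 4) : val Set.univ (XX k) = single (-(2 • edw k)) (lin k * lin (k + 1)) :=
  rfl

theorem XX_ne_zero (k : Fin 4) : XX k ≠ 0 := by
  rw [XX, Ne, sg_eq_zero_iff]
  exact mul_ne_zero (lin_ne_zero _) (lin_ne_zero _)

theorem XX_mul (k : Fin 4) : XX k * ed Set.univ k ^ 2 = zl Set.univ k * zl Set.univ (k + 1) := by
  apply Ax_ext
  rw [map_mul, map_pow, map_mul, val_XX, val_ed, val_zl, val_zl, single_pow, single_mul_single,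
    single_mul_single, one_pow, mul_one, neg_add_cancel, add_zero]

/-- Factoring out `X_k X_{k+1}`. -/
theorem factor (k : Fin 4) (w : G) (hk : co k w < 0) (hk1 : co (k + 1) w < 0) (p : ℂ[X])
    (hp : Cond Set.univ w p) :
    ∃ f' : A, sg w p hp = XX k * f' := by
  have hne : k ≠ k + 1 := ne_add_one k
  obtain ⟨q, hq⟩ : lin k * lin (k + 1) ∣ p := by
    have h1 := lin_isCoprime hne 1 1
    rw [pow_one, pow_one] at h1
    refine h1.mul_dvd ?_ ?_
    · have h2 : 1 ≤ kap (co k w) := by unfold kap; omega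
      exact (dvd_of_eq (pow_one _).symm).trans ((pow_dvd_pow _ h2).trans (hp k trivial))
    · have h2 : 1 ≤ kap (co (k + 1) w) := by unfold kap; omega
      exact (dvd_of_eq (pow_one _).symm).trans ((pow_dvd_pow _ h2).trans (hp (k + 1) trivial))
  have hedk : ∀ j : Fin 4, co j (edw k) = if j = k ∨ j = k + 1 then 1 else 0 := by
    clear hq hk hk1
    revert k
    decide
  have hc : Cond Set.univ (w + 2 • edw k) q := by
    intro j _
    have hpj := hp j trivial
    rw [hq] at hpj
    rw [co_add, co_nsmul, hedk]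
    by_cases h1 : j = k
    · rw [h1] at hpj ⊢
      rw [if_pos (Or.inl rfl)]
      have h2 : kap (co k w) = kap (co k w + ((2 : ℕ) : ℤ) * 1) + 1 := by
        unfold kap; push_cast; omega
      rw [h2, pow_succ', mul_assoc] at hpj
      have h3 := (mul_dvd_mul_iff_left (lin_ne_zero k)).mp hpj
      have h4 := lin_isCoprime hne (kap (co k w + ((2 : ℕ) : ℤ) * 1)) 1
      rw [pow_one] at h4
      exact h4.dvd_of_dvd_mul_left h3
    · by_cases h1' : j = k + 1
      · rw [h1'] at hpj ⊢
        rw [if_pos (Or.inr rfl)]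
        have h2 : kap (co (k + 1) w) = kap (co (k + 1) w + ((2 : ℕ) : ℤ) * 1) + 1 := by
          unfold kap; push_cast; omega
        rw [h2, pow_succ', mul_comm (lin k), mul_assoc] at hpj
        have h3 := (mul_dvd_mul_iff_left (lin_ne_zero (k + 1))).mp hpj
        have h4 := lin_isCoprime hne.symm (kap (co (k + 1) w + ((2 : ℕ) : ℤ) * 1)) 1
        rw [pow_one] at h4
        exact h4.dvd_of_dvd_mul_left h3
      · rw [if_neg (by tauto)]
        have h5 := lin_isCoprime h1 (kap (co j w)) 1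
        have h6 := lin_isCoprime h1' (kap (co j w)) 1
        rw [pow_one] at h5 h6
        rw [mul_zero, add_zero]
        rw [mul_assoc] at hpj
        exact h6.dvd_of_dvd_mul_left (h5.dvd_of_dvd_mul_left hpj)
  refine ⟨sg (w + 2 • edw k) q hc, ?_⟩
  apply Ax_ext
  rw [map_mul, val_XX, val_sg, val_sg, single_mul_single, ← hq]
  congr 1
  abel

variable {Θ : Derivation ℂ A A} (hΘ : IsLND Θ)
include hΘ

/-- If `X_k X_{k+1}` is in the kernel of an LND then so is `z`. -/
theorem zz_of_XX {k : Fin 4} (h : Θ (XX k) = 0) : Θ zz = 0 := by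
  have hne : k ≠ k + 1 := ne_add_one k
  have hd : (zv k - zv (k + 1)) / 2 ≠ 0 :=
    div_ne_zero (sub_ne_zero.mpr fun h' => hne (zv_injective h')) two_ne_zero
  have key := quadric hΘ (Z := zz - algebraMap ℂ A ((zv k + zv (k + 1)) / 2)) (w := XX k)
    (g := ed Set.univ k) hd (XX_ne_zero k) h (by
      rw [XX_mul, zl_eq, zl_eq]
      have h1 : algebraMap ℂ A (zv k) = algebraMap ℂ A ((zv k + zv (k + 1)) / 2) +
          algebraMap ℂ A ((zv k - zv (k + 1)) / 2) := by rw [← map_add]; congr 1; ring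
      have h2 : algebraMap ℂ A (zv (k + 1)) = algebraMap ℂ A ((zv k + zv (k + 1)) / 2) -
          algebraMap ℂ A ((zv k - zv (k + 1)) / 2) := by rw [← map_sub]; congr 1; ring
      rw [h1, h2, map_pow]
      ring)
  rwa [map_sub, Derivation.map_algebraMap, sub_zero] at key

/-- An LND killing `z` vanishes. -/
theorem eq_zero_of_zz (h : Θ zz = 0) : Θ = 0 := by
  have hpoly : ∀ (r : ℂ[X]) (hr : Cond Set.univ 0 r), Θ (sg 0 r hr) = 0 := by
    intro r hr
    let K : Subalgebra ℂ A :=
      { carrier := {a | Θ a = 0}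
        mul_mem' := by
          intro a b ha hb
          change Θ (a * b) = 0
          rw [Derivation.leibniz, show Θ a = 0 from ha, show Θ b = 0 from hb]
          simp
        add_mem' := by
          intro a b ha hb
          change Θ (a + b) = 0
          rw [map_add, show Θ a = 0 from ha, show Θ b = 0 from hb, add_zero]
        algebraMap_mem' := fun c => Θ.map_algebraMap c }
    exact poly_mem K h r hr
  apply der_ext
  intro w p hp
  rw [Derivation.zero_apply]
  by_cases hp0 : p = 0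
  · subst hp0
    rw [sg_zero, map_zero]
  set q : ℂ[X] := ∏ i : Fin 4, lin i ^ kap (co i (-w)) with hq
  have hq0 : q ≠ 0 := Finset.prod_ne_zero_iff.mpr fun i _ => pow_ne_zero _ (lin_ne_zero i)
  have hqc : Cond Set.univ (-w) q := fun i _ => Finset.dvd_prod_of_mem _ (Finset.mem_univ i)
  refine ker_of_mul hΘ (g := sg (-w) q hqc) ?_ ?_ ?_
  · rwa [Ne, sg_eq_zero_iff]
  · rwa [Ne, sg_eq_zero_iff]
  · rw [sg_mul]
    have h0 : Cond Set.univ 0 (p * q) := Cond.of_nonneg (fun i _ => by rw [co_zero]) _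
    rw [sg_congr _ h0 (add_neg_cancel w) rfl]
    exact hpoly _ _

/-- Nonzero homogeneous elements in the kernel of a nonzero LND have nonnegative `s`-weight. -/
theorem gS_nonneg_of_ker (h0 : Θ ≠ 0) {w : G} {p : ℂ[X]} (hp : Cond Set.univ w p) (hp0 : p ≠ 0)
    (h : Θ (sg w p hp) = 0) : 0 ≤ gS w := by
  by_contra hneg
  push Not at hneg
  obtain ⟨k, hk, hk1⟩ : ∃ k : Fin 4, co k w < 0 ∧ co (k + 1) w < 0 := by
    by_cases ha : gA w < 0
    · by_cases hb : gB w < 0
      · exact ⟨0, ha, hb⟩
      · exact ⟨3, by change gS w - gB w < 0; omega, ha⟩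
    · by_cases hb : gB w < 0
      · exact ⟨1, hb, by change gS w - gA w < 0; omega⟩
      · exact ⟨2, by change gS w - gA w < 0; omega, by change gS w - gB w < 0; omega⟩
  obtain ⟨f', hf'⟩ := factor k w hk hk1 p hp
  rw [hf'] at h
  have hf0 : f' ≠ 0 := by
    rintro rfl
    rw [mul_zero, sg_eq_zero_iff] at hf'
    exact hp0 hf'
  exact h0 (eq_zero_of_zz hΘ (zz_of_XX hΘ (ker_of_mul hΘ (XX_ne_zero k) hf0 h)))

end Pool.Agent.helper89.Flex
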