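import Pool.Agent.helper89.Flex.Defs

/-!
# Locally nilpotent derivations: exponentials, degree, completeness
-/

namespace Pool.Agent.helper89.Flex

open Polynomial Finset

section
variable {A : Type*} [CommRing A] [Algebra ℂ A] (D : Derivation ℂ A A)

theorem iterate_zero (n : ℕ) : (⇑D)^[n] (0 : A) = 0 := by
  induction n with
  | zero => rfl
  | succ n ih => rw [Function.iterate_succ_apply, map_zero, ih]

theorem iterate_eq_zero_of_le {f : A} {m n : ℕ} (h : (⇑D)^[m] f = 0) (hmn : m ≤ n) :
    (⇑D)^[n] f = 0 := by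
  obtain ⟨k, rfl⟩ := Nat.exists_eq_add_of_le' hmn
  rw [Function.iterate_add_apply, h, iterate_zero]

theorem iterate_add' (n : ℕ) (f g : A) : (⇑D)^[n] (f + g) = (⇑D)^[n] f + (⇑D)^[n] g := by
  induction n generalizing f g with
  | zero => rfl
  | succ n ih => simp only [Function.iterate_succ_apply, map_add, ih]

theorem iterate_smul' (n : ℕ) (c : ℂ) (f : A) : (⇑D)^[n] (c • f) = c • (⇑D)^[n] f := by
  induction n generalizing f with
  | zero => rfl
  | succ n ih => rw [Function.iterate_succ_apply, Function.iterate_succ_apply, D.map_smul, ih]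

/-- The iterated Leibniz rule. -/
theorem iterate_mul (n : ℕ) (f g : A) :
    (⇑D)^[n] (f * g) =
      ∑ ij ∈ antidiagonal n, (n.choose ij.1 : A) * ((⇑D)^[ij.1] f * (⇑D)^[ij.2] g) := by
  induction n with
  | zero => simp
  | succ n ih =>
    rw [Finset.sum_antidiagonal_choose_succ_mul (fun i j => (⇑D)^[i] f * (⇑D)^[j] g) n,
      Function.iterate_succ_apply', ih, map_sum, ← Finset.sum_add_distrib]
    refine Finset.sum_congr rfl fun ij hij => ?_
    have h1 : D ((n.choose ij.1 : A) * ((⇑D)^[ij.1] f * (⇑D)^[ij.2] g)) =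
        (n.choose ij.1 : A) * D ((⇑D)^[ij.1] f * (⇑D)^[ij.2] g) := by
      rw [← nsmul_eq_mul, ← nsmul_eq_mul, map_nsmul]
    have h2 : n.choose ij.2 = n.choose ij.1 := by
      rw [HasAntidiagonal.mem_antidiagonal] at hij
      rw [← hij]
      exact (Nat.choose_symm_add).symm
    rw [h1, h2, Derivation.leibniz, Function.iterate_succ_apply', Function.iterate_succ_apply']
    simp only [smul_eq_mul]
    ring

/-- Divided powers of a derivation. -/
noncomputable def dp (n : ℕ) (f : A) : A := ((n.factorial : ℂ)⁻¹) • (⇑D)^[n] f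

theorem dp_zero (f : A) : dp D 0 f = f := by simp [dp]

theorem dp_one (f : A) : dp D 1 f = D f := by simp [dp]

theorem dp_add' (n : ℕ) (f g : A) : dp D n (f + g) = dp D n f + dp D n g := by
  simp only [dp, iterate_add', smul_add]

theorem dp_smul' (n : ℕ) (c : ℂ) (f : A) : dp D n (c • f) = c • dp D n f := by
  rw [dp, dp, iterate_smul', smul_comm]

theorem dp_mul (n : ℕ) (f g : A) :
    dp D n (f * g) = ∑ ij ∈ antidiagonal n, dp D ij.1 f * dp D ij.2 g := by
  rw [dp, iterate_mul, Finset.smul_sum]
  refine Finset.sum_congr rfl fun ij hij => ?_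
  rw [HasAntidiagonal.mem_antidiagonal] at hij
  simp only [dp]
  have h : ((n.factorial : ℂ)⁻¹) * (n.choose ij.1 : ℂ) =
      ((ij.1.factorial : ℂ)⁻¹) * ((ij.2.factorial : ℂ)⁻¹) := by
    rw [← hij]
    have := Nat.add_choose_mul_factorial_mul_factorial ij.1 ij.2
    rw [← Nat.choose_symm_add] at this
    have h' : ((ij.1 + ij.2).choose ij.1 : ℂ) * (ij.1.factorial : ℂ) * (ij.2.factorial : ℂ) =
        ((ij.1 + ij.2).factorial : ℂ) := by exact_mod_cast this
    have h1 : (ij.1.factorial : ℂ) ≠ 0 := by exact_mod_cast ij.1.factorial_ne_zero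
    have h2 : (ij.2.factorial : ℂ) ≠ 0 := by exact_mod_cast ij.2.factorial_ne_zero
    have h3 : ((ij.1 + ij.2).factorial : ℂ) ≠ 0 := by
      exact_mod_cast (ij.1 + ij.2).factorial_ne_zero
    field_simp
    linear_combination h'
  rw [smul_mul_smul_comm, ← h, mul_smul, ← nsmul_eq_mul, Nat.cast_smul_eq_nsmul]

theorem dp_dp (m n : ℕ) (f : A) :
    dp D m (dp D n f) = ((m + n).choose m : ℂ) • dp D (m + n) f := by
  simp only [dp]
  rw [iterate_smul', ← Function.iterate_add_apply, smul_smul, smul_smul]
  congr 1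
  have := Nat.add_choose_mul_factorial_mul_factorial m n
  rw [← Nat.choose_symm_add] at this
  have h' : ((m + n).choose m : ℂ) * (m.factorial : ℂ) * (n.factorial : ℂ) =
      ((m + n).factorial : ℂ) := by exact_mod_cast this
  have h1 : (m.factorial : ℂ) ≠ 0 := by exact_mod_cast m.factorial_ne_zero
  have h2 : (n.factorial : ℂ) ≠ 0 := by exact_mod_cast n.factorial_ne_zero
  have h3 : ((m + n).factorial : ℂ) ≠ 0 := by
    exact_mod_cast (m + n).factorial_ne_zero
  field_simp
  linear_combination -h'

variable {D} (hD : IsLND D)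
include hD

open Classical in
/-- The nilpotency order. -/
noncomputable def ord (f : A) : ℕ := Nat.find (hD f)

open Classical in
theorem iterate_ord (f : A) : (⇑D)^[ord hD f] f = 0 := Nat.find_spec (hD f)

/-- `exp(X D) f` as a polynomial in `X`. -/
noncomputable def expPoly (f : A) : A[X] := ∑ n ∈ range (ord hD f), monomial n (dp D n f)

theorem coeff_expPoly (f : A) (n : ℕ) : (expPoly hD f).coeff n = dp D n f := by
  simp only [expPoly, finsetSum_coeff, coeff_monomial]
  rw [Finset.sum_ite_eq' (range (ord hD f)) n]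
  split_ifs with h
  · rfl
  · rw [mem_range, not_lt] at h
    rw [dp, iterate_eq_zero_of_le D (iterate_ord hD f) h, smul_zero]

/-- `exp(X D)` as an algebra homomorphism `A → A[X]`. -/
noncomputable def expHom : A →ₐ[ℂ] A[X] where
  toFun := expPoly hD
  map_one' := by
    ext n
    rw [coeff_expPoly, coeff_one]
    split_ifs with h
    · subst h; simp [dp]
    · obtain ⟨k, rfl⟩ := Nat.exists_eq_succ_of_ne_zero h
      simp [dp, Function.iterate_succ_apply]
  map_mul' f g := by
    ext n
    rw [coeff_expPoly, coeff_mul, dp_mul]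
    simp only [coeff_expPoly]
  map_zero' := by
    ext n
    simp [coeff_expPoly, dp]
  map_add' f g := by
    ext n
    simp [coeff_expPoly, dp_add']
  commutes' c := by
    ext n
    rw [coeff_expPoly, Polynomial.algebraMap_apply, coeff_C]
    split_ifs with h
    · subst h; simp [dp]
    · obtain ⟨k, rfl⟩ := Nat.exists_eq_succ_of_ne_zero h
      simp [dp, Function.iterate_succ_apply]

@[simp] theorem coeff_expHom (f : A) (n : ℕ) : (expHom hD f).coeff n = dp D n f :=
  coeff_expPoly hD f n

theorem expHom_injective : Function.Injective (expHom hD) := by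
  intro f g h
  have := congrArg (fun p => p.coeff 0) h
  simpa [dp_zero] using this

theorem derivative_expHom (f : A) : derivative (expHom hD f) = expHom hD (D f) := by
  ext n
  rw [coeff_derivative, coeff_expHom, coeff_expHom]
  simp only [dp, Function.iterate_succ_apply]
  have h1 : ((n : A) + 1) = algebraMap ℂ A ((n : ℂ) + 1) := by simp
  rw [h1, ← Algebra.commutes, ← Algebra.smul_def, smul_smul]
  congr 1
  rw [Nat.factorial_succ]
  have h2 : (n.factorial : ℂ) ≠ 0 := by exact_mod_cast n.factorial_ne_zero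
  have h3 : ((n : ℂ) + 1) ≠ 0 := by exact_mod_cast n.succ_ne_zero
  push_cast
  field_simp

/-- `exp(t D)` as an algebra endomorphism of `A`. -/
noncomputable def expAt (t : ℂ) : A →ₐ[ℂ] A :=
  ((aeval (algebraMap ℂ A t) : A[X] →ₐ[A] A).restrictScalars ℂ).comp (expHom hD)

theorem expAt_apply (t : ℂ) (f : A) :
    expAt hD t f = (expHom hD f).eval (algebraMap ℂ A t) := by
  simp [expAt, coe_aeval_eq_eval]

theorem expAt_eq_sum (t : ℂ) (f : A) {N : ℕ} (hN : (⇑D)^[N] f = 0) :
    expAt hD t f = ∑ n ∈ range N, t ^ n • dp D n f := by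
  rcases Nat.eq_zero_or_pos N with h | hpos
  · subst h
    have : f = 0 := hN
    subst this
    simp
  rw [expAt_apply, eval_eq_sum_range' (n := N)]
  · refine Finset.sum_congr rfl fun n _ => ?_
    rw [coeff_expHom, ← map_pow, ← Algebra.commutes, Algebra.smul_def]
  · by_cases h0 : expHom hD f = 0
    · rw [h0, natDegree_zero]
      exact hpos
    · rw [natDegree_lt_iff_degree_lt h0, degree_lt_iff_coeff_zero]
      intro m hm
      rw [coeff_expHom, dp, iterate_eq_zero_of_le D hN hm, smul_zero]

omit hD in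
theorem dp_sum (m : ℕ) {ι : Type*} (s : Finset ι) (f : ι → A) :
    dp D m (∑ i ∈ s, f i) = ∑ i ∈ s, dp D m (f i) := by
  classical
  induction s using Finset.induction_on with
  | empty => simp [dp]
  | insert a s ha ih => rw [Finset.sum_insert ha, Finset.sum_insert ha, dp_add', ih]

omit hD in
theorem dp_eq_zero {f : A} {N n : ℕ} (hN : (⇑D)^[N] f = 0) (h : N ≤ n) : dp D n f = 0 := by
  rw [dp, iterate_eq_zero_of_le D hN h, smul_zero]

theorem expAt_expAt (s t : ℂ) (f : A) :
    expAt hD s (expAt hD t f) = expAt hD (s + t) f := by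
  obtain ⟨N, hN⟩ := hD f
  have h1 : (⇑D)^[N] (expAt hD t f) = 0 := by
    rw [expAt_eq_sum hD t f hN]
    have : ∀ (S : Finset ℕ), (⇑D)^[N] (∑ n ∈ S, t ^ n • dp D n f) = 0 := by
      intro S
      classical
      induction S using Finset.induction_on with
      | empty => simp
      | insert a S ha ih =>
        rw [Finset.sum_insert ha, iterate_add', ih, add_zero, iterate_smul', dp, iterate_smul',
          ← Function.iterate_add_apply, iterate_eq_zero_of_le D hN (Nat.le_add_right N a),
          smul_zero, smul_zero]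
    exact this _
  rw [expAt_eq_sum hD s _ h1, expAt_eq_sum hD t f hN, expAt_eq_sum hD (s + t) f hN]
  set F : ℕ × ℕ → A := fun x =>
    (s ^ x.1 * t ^ x.2 * ((x.1 + x.2).choose x.1 : ℂ)) • dp D (x.1 + x.2) f with hF
  have hL : ∑ m ∈ range N, s ^ m • dp D m (∑ n ∈ range N, t ^ n • dp D n f) =
      ∑ x ∈ range N ×ˢ range N, F x := by
    rw [Finset.sum_product]
    refine Finset.sum_congr rfl fun m _ => ?_
    rw [dp_sum, Finset.smul_sum]
    refine Finset.sum_congr rfl fun n _ => ?_
    rw [dp_smul', dp_dp, smul_smul, smul_smul, hF]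
  have hR : ∑ k ∈ range N, (s + t) ^ k • dp D k f =
      ∑ k ∈ range N, ∑ x ∈ (range N ×ˢ range N).filter (fun x => x.1 + x.2 < N) with
        x.1 + x.2 = k, F x := by
    refine Finset.sum_congr rfl fun k hk => ?_
    rw [mem_range] at hk
    have hset : ((range N ×ˢ range N).filter (fun x => x.1 + x.2 < N)).filter
        (fun x => x.1 + x.2 = k) = antidiagonal k := by
      ext x
      simp only [mem_filter, mem_product, mem_range, HasAntidiagonal.mem_antidiagonal]
      omega
    rw [hset, (Commute.all s t).add_pow', Finset.sum_smul]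
    refine Finset.sum_congr rfl fun x hx => ?_
    rw [HasAntidiagonal.mem_antidiagonal] at hx
    rw [hF]
    simp only [hx, nsmul_eq_mul]
    ring_nf
  rw [hL, hR, Finset.sum_fiberwise_of_maps_to (s := (range N ×ˢ range N).filter
    (fun x => x.1 + x.2 < N)) (t := range N) (g := fun x => x.1 + x.2) (f := F)]
  · rw [Finset.sum_filter]
    refine Finset.sum_congr rfl fun x _ => ?_
    split_ifs with h
    · rfl
    · rw [hF]
      simp only
      rw [dp_eq_zero hN (not_lt.mp h), smul_zero]
  · intro x hx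
    simp only [mem_filter] at hx
    exact mem_range.mpr hx.2

theorem expAt_zero (f : A) : expAt hD 0 f = f := by
  rw [expAt_apply, map_zero, ← coeff_zero_eq_eval_zero, coeff_expHom, dp_zero]

/-- `exp(t D)` as an automorphism. -/
noncomputable def expEquiv (t : ℂ) : A ≃ₐ[ℂ] A :=
  AlgEquiv.ofAlgHom (expAt hD t) (expAt hD (-t))
    (by ext f; simp [expAt_expAt, expAt_zero]) (by ext f; simp [expAt_expAt, expAt_zero])

@[simp] theorem expEquiv_apply (t : ℂ) (f : A) : expEquiv hD t f = expAt hD t f := rfl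

end

section
variable {A : Type*} [CommRing A] [Algebra ℂ A] {D : Derivation ℂ A A}

theorem IsLND.isCompleteField (hD : IsLND D) : IsCompleteField D := by
  intro x
  refine ⟨fun t => x.comp (expAt hD t), ?_, ?_⟩
  · ext f
    simp [expAt_zero]
  · intro t f
    have key : ∀ (g : A) (s : ℂ), (x.comp (expAt hD s)) g =
        ((expHom hD g).map (x : A →+* ℂ)).eval s := by
      intro g s
      have h2 := Polynomial.eval₂_at_apply (p := expHom hD g) (x : A →+* ℂ) (algebraMap ℂ A s)
      have h3 : (x : A →+* ℂ) (algebraMap ℂ A s) = s := by simp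
      rw [h3] at h2
      rw [AlgHom.comp_apply, expAt_apply, eval_map, h2]
      rfl
    have h1 := ((expHom hD f).map (x : A →+* ℂ)).hasDerivAt t
    rw [derivative_map, derivative_expHom] at h1
    simpa only [key] using h1

/-- The conjugate of a derivation by an automorphism. -/
noncomputable def conj (e : A ≃ₐ[ℂ] A) (D : Derivation ℂ A A) : Derivation ℂ A A :=
  Derivation.mk' (e.toLinearMap ∘ₗ D.toLinearMap ∘ₗ e.symm.toLinearMap) (by
    intro a b
    simp [Derivation.leibniz])

@[simp] theorem conj_apply (e : A ≃ₐ[ℂ] A) (D : Derivation ℂ A A) (f : A) :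
    conj e D f = e (D (e.symm f)) := rfl

theorem iterate_conj (e : A ≃ₐ[ℂ] A) (D : Derivation ℂ A A) (n : ℕ) (f : A) :
    (⇑(conj e D))^[n] f = e ((⇑D)^[n] (e.symm f)) := by
  induction n generalizing f with
  | zero => simp
  | succ n ih => rw [Function.iterate_succ_apply, ih, Function.iterate_succ_apply, conj_apply,
      AlgEquiv.symm_apply_apply]

theorem IsLND.conj (hD : IsLND D) (e : A ≃ₐ[ℂ] A) : IsLND (conj e D) := by
  intro f
  obtain ⟨n, hn⟩ := hD (e.symm f)
  exact ⟨n, by rw [iterate_conj, hn, map_zero]⟩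

theorem iterate_smul_of_ker {k : A} (hk : D k = 0) (n : ℕ) (f : A) :
    (⇑(k • D))^[n] f = k ^ n * (⇑D)^[n] f := by
  have hkn : ∀ n : ℕ, D (k ^ n) = 0 := by
    intro n
    rw [Derivation.leibniz_pow, hk]
    simp
  induction n with
  | zero => simp
  | succ n ih =>
    rw [Function.iterate_succ_apply', ih, Derivation.smul_apply, Derivation.leibniz, hkn,
      Function.iterate_succ_apply']
    simp only [smul_eq_mul]
    ring

theorem IsLND.smul_ker (hD : IsLND D) {k : A} (hk : D k = 0) : IsLND (k • D) := by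
  intro f
  obtain ⟨n, hn⟩ := hD f
  exact ⟨n, by rw [iterate_smul_of_ker hk, hn, mul_zero]⟩

variable [IsDomain A] (hD : IsLND D)
include hD

/-- The degree function of a locally nilpotent derivation. -/
noncomputable def lndDeg (f : A) : ℕ := (expHom hD f).natDegree

omit [IsDomain A] in
theorem expHom_ne_zero {f : A} (hf : f ≠ 0) : expHom hD f ≠ 0 := by
  intro h
  exact hf (expHom_injective hD (by rw [h, map_zero]))

theorem lndDeg_mul {f g : A} (hf : f ≠ 0) (hg : g ≠ 0) :
    lndDeg hD (f * g) = lndDeg hD f + lndDeg hD g := by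
  rw [lndDeg, map_mul, natDegree_mul (expHom_ne_zero hD hf) (expHom_ne_zero hD hg)]
  rfl

omit [IsDomain A] in
theorem lndDeg_eq_zero_iff (f : A) : lndDeg hD f = 0 ↔ D f = 0 := by
  constructor
  · intro h
    have h1 := coeff_eq_zero_of_natDegree_lt (p := expHom hD f) (n := 1) (by
      change lndDeg hD f < 1; omega)
    rwa [coeff_expHom, dp_one] at h1
  · intro h
    have : expHom hD f = C f := by
      ext n
      rw [coeff_expHom, coeff_C]
      rcases n with _ | n
      · simp [dp_zero]
      · simp [dp, Function.iterate_succ_apply, h]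
    rw [lndDeg, this, natDegree_C]

omit [IsDomain A] in
theorem lndDeg_apply_lt {f : A} (hf : D f ≠ 0) : lndDeg hD (D f) < lndDeg hD f := by
  have h0 : lndDeg hD f ≠ 0 := fun h => hf ((lndDeg_eq_zero_iff hD f).mp h)
  rw [lndDeg, ← derivative_expHom]
  exact natDegree_derivative_lt h0

/-- The kernel of a locally nilpotent derivation of a domain is factorially closed. -/
theorem ker_of_mul {f g : A} (hf : f ≠ 0) (hg : g ≠ 0) (h : D (f * g) = 0) : D f = 0 := by
  rw [← lndDeg_eq_zero_iff hD, lndDeg_mul hD hf hg] at h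
  rw [← lndDeg_eq_zero_iff hD]
  omega

/-- The quadric lemma: if `Z² - w g² = δ²` with `δ ∈ ℂ*` and `w ≠ 0` in the kernel, then `Z` is
in the kernel. -/
theorem quadric {Z w g : A} {d : ℂ} (hd : d ≠ 0) (hw0 : w ≠ 0) (hw : D w = 0)
    (h : Z ^ 2 - w * g ^ 2 = algebraMap ℂ A (d ^ 2)) : D Z = 0 := by
  by_contra hZ
  have hD2 : Z * D Z = w * (g * D g) := by
    have h1 := congrArg D h
    rw [map_sub, Derivation.leibniz, Derivation.map_algebraMap, hw, Derivation.leibniz_pow,
      Derivation.leibniz_pow] at h1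
    simp only [smul_eq_mul, mul_zero, add_zero, nsmul_eq_mul] at h1
    have h2 : (2 : A) * (Z * D Z - w * (g * D g)) = 0 := by
      push_cast at h1
      linear_combination h1
    have h3 : (2 : A) ≠ 0 := by
      have : algebraMap ℂ A 2 ≠ 0 := by
        rw [Ne, map_eq_zero_iff _ (algebraMap ℂ A).injective]
        norm_num
      rwa [map_ofNat] at this
    have h4 := (mul_eq_zero.mp h2).resolve_left h3
    exact sub_eq_zero.mp h4
  have hd' : algebraMap ℂ A (d ^ 2) ≠ 0 := by
    rw [Ne, map_eq_zero_iff _ (algebraMap ℂ A).injective]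
    exact pow_ne_zero 2 hd
  have key : algebraMap ℂ A (d ^ 2) * D Z = w * (g * (Z * D g - g * D Z)) := by
    rw [← h]
    linear_combination Z * hD2
  have hne : w * (g * (Z * D g - g * D Z)) ≠ 0 := by
    rw [← key]; exact mul_ne_zero hd' hZ
  have hg : g ≠ 0 := fun h => hne (by rw [h]; ring)
  have hr : Z * D g - g * D Z ≠ 0 := fun h => hne (by rw [h]; ring)
  -- degrees
  have hdd : D (algebraMap ℂ A (d ^ 2)) = 0 := Derivation.map_algebraMap _ _
  have e1 : lndDeg hD (D Z) = lndDeg hD g + lndDeg hD (Z * D g - g * D Z) := by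
    have := congrArg (lndDeg hD) key
    rw [lndDeg_mul hD hd' hZ, lndDeg_mul hD hw0 (mul_ne_zero hg hr), lndDeg_mul hD hg hr,
      (lndDeg_eq_zero_iff hD _).mpr hdd, (lndDeg_eq_zero_iff hD _).mpr hw] at this
    omega
  have hZm : D (Z - algebraMap ℂ A d) = D Z := by
    rw [map_sub, Derivation.map_algebraMap, sub_zero]
  have hZp : D (Z + algebraMap ℂ A d) = D Z := by
    rw [map_add, Derivation.map_algebraMap, add_zero]
  have hm0 : Z - algebraMap ℂ A d ≠ 0 := fun h => hZ (by rw [← hZm, h, map_zero])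
  have hp0 : Z + algebraMap ℂ A d ≠ 0 := fun h => hZ (by rw [← hZp, h, map_zero])
  have e2 : lndDeg hD (Z - algebraMap ℂ A d) = lndDeg hD Z := by
    rw [lndDeg, map_sub, AlgHom.commutes, Polynomial.algebraMap_apply, natDegree_sub_C]
    rfl
  have e3 : lndDeg hD (Z + algebraMap ℂ A d) = lndDeg hD Z := by
    rw [lndDeg, map_add, AlgHom.commutes, Polynomial.algebraMap_apply, natDegree_add_C]
    rfl
  have e4 : w * (g * g) = (Z - algebraMap ℂ A d) * (Z + algebraMap ℂ A d) := by
    rw [map_pow] at h
    linear_combination -h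
  have e5 := congrArg (lndDeg hD) e4
  rw [lndDeg_mul hD hw0 (mul_ne_zero hg hg), lndDeg_mul hD hg hg, lndDeg_mul hD hm0 hp0, e2, e3,
    (lndDeg_eq_zero_iff hD _).mpr hw] at e5
  have e6 := lndDeg_apply_lt hD hZ
  omega

end

end Pool.Agent.helper89.Flex
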