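import Pool.Agent.helper89.Flex.Kernel

/-!
# Lowest homogeneous component of a locally nilpotent derivation
-/

namespace Pool.Agent.helper89.Flex

open Polynomial AddMonoidAlgebra

/-- Projection to the component of weight `w`. -/
noncomputable def cp (w : G) : A →ₗ[ℂ] A where
  toFun a := sg w ((val Set.univ a).coeff w) (val_mem a w)
  map_add' a b := Ax_ext (by simp)
  map_smul' c a := Ax_ext (by simp)

theorem val_cp (w : G) (a : A) : val Set.univ (cp w a) = single w ((val Set.univ a).coeff w) := rfl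

theorem cp_eq_zero_iff (w : G) (a : A) : cp w a = 0 ↔ (val Set.univ a).coeff w = 0 :=
  sg_eq_zero_iff (val_mem a w)

theorem cp_sg_self (w : G) (p : ℂ[X]) (h : Cond Set.univ w p) : cp w (sg w p h) = sg w p h := by
  apply Ax_ext
  rw [val_cp, val_sg, coeff_single, Finsupp.single_eq_same]

theorem cp_sg_ne {v w : G} (hvw : v ≠ w) (p : ℂ[X]) (h : Cond Set.univ w p) :
    cp v (sg w p h) = 0 := by
  rw [cp_eq_zero_iff, val_sg, coeff_single, Finsupp.single_eq_of_ne hvw]

theorem cp_cp_self (w : G) (a : A) : cp w (cp w a) = cp w a := cp_sg_self _ _ (val_mem a w)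

theorem ext_cp {a b : A} (h : ∀ w, cp w a = cp w b) : a = b := by
  apply Ax_ext
  apply AddMonoidAlgebra.ext
  apply Finsupp.ext
  intro w
  have := congrArg (fun f => (val Set.univ f).coeff w) (h w)
  simpa [val_cp] using this

/-- The support. -/
noncomputable def supp (a : A) : Finset G := (val Set.univ a).coeff.support

theorem mem_supp {a : A} {w : G} : w ∈ supp a ↔ cp w a ≠ 0 := by
  rw [supp, Finsupp.mem_support_iff, Ne, Ne, cp_eq_zero_iff]

theorem sum_cp (a : A) : ∑ w ∈ supp a, cp w a = a := by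
  apply Ax_ext
  rw [map_sum]
  simp only [val_cp]
  conv_rhs => rw [← sum_coeff_single (val Set.univ a)]
  rfl

/-- The decomposition into homogeneous components, as a linear map. -/
noncomputable def dec : A →ₗ[ℂ] (G →₀ A) where
  toFun a := Finsupp.onFinset (supp a) (fun w => cp w a) (fun w hw => mem_supp.mpr hw)
  map_add' a b := by ext w; simp
  map_smul' c a := by ext w; simp

theorem dec_apply (a : A) (w : G) : dec a w = cp w a := rfl

theorem dec_sg (w : G) (p : ℂ[X]) (h : Cond Set.univ w p) :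
    dec (sg w p h) = Finsupp.single w (sg w p h) := by
  classical
  apply Finsupp.ext
  intro v
  rw [dec_apply, Finsupp.single_apply]
  split_ifs with hv
  · rw [← hv, cp_sg_self]
  · exact cp_sg_ne (fun h => hv h.symm) _ _

theorem cp_sg_mul (u w : G) (p : ℂ[X]) (h : Cond Set.univ w p) (b : A) :
    cp (w + u) (sg w p h * b) = sg w p h * cp u b := by
  apply Ax_ext
  rw [val_cp, map_mul, map_mul, val_sg, val_cp, single_mul_single]
  congr 1
  exact AddMonoidAlgebra.coeff_single_mul_add _ _ _ _

/-- The homogeneous component of weight `e` of a linear map. -/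
noncomputable def cmp (Θ : A →ₗ[ℂ] A) (e : G) : A →ₗ[ℂ] A :=
  (Finsupp.lsum ℂ (fun w => cp (w + e) ∘ₗ Θ)) ∘ₗ dec

theorem cmp_sg (Θ : A →ₗ[ℂ] A) (e w : G) (p : ℂ[X]) (h : Cond Set.univ w p) :
    cmp Θ e (sg w p h) = cp (w + e) (Θ (sg w p h)) := by
  rw [cmp, LinearMap.comp_apply, dec_sg, Finsupp.lsum_single, LinearMap.comp_apply]

theorem cp_cmp (Θ : A →ₗ[ℂ] A) (e v : G) (a : A) :
    cp (v + e) (cmp Θ e a) = cp (v + e) (Θ (cp v a)) := by
  induction a using Ax_induction with
  | h0 => simp
  | hadd a b ha hb => simp only [map_add, ha, hb]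
  | hs w p hp =>
    rw [cmp_sg]
    by_cases hvw : v = w
    · subst hvw
      rw [cp_cp_self, cp_sg_self]
    · rw [cp_sg_ne hvw, map_zero, map_zero]
      exact cp_sg_ne (fun h => hvw (add_right_cancel h)) _ (val_mem (Θ (sg w p hp)) (w + e))

theorem cmp_leibniz (Θ : Derivation ℂ A A) (e : G) (a b : A) :
    cmp Θ.toLinearMap e (a * b) =
      a • cmp Θ.toLinearMap e b + b • cmp Θ.toLinearMap e a := by
  simp only [smul_eq_mul]
  induction a using Ax_induction with
  | h0 => simp
  | hadd x y hx hy => simp only [add_mul, mul_add, map_add, hx, hy]; ring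
  | hs v p hp =>
    induction b using Ax_induction with
    | h0 => simp
    | hadd x y hx hy => simp only [add_mul, mul_add, map_add, hx, hy]; ring
    | hs w r hr =>
      rw [sg_mul, cmp_sg, cmp_sg, cmp_sg, ← sg_mul hp hr]
      change cp (v + w + e) (Θ (sg v p hp * sg w r hr)) = sg v p hp * cp (w + e) (Θ (sg w r hr)) +
        sg w r hr * cp (v + e) (Θ (sg v p hp))
      rw [Derivation.leibniz, map_add, smul_eq_mul, smul_eq_mul, add_assoc, cp_sg_mul,
        show v + (w + e) = w + (v + e) by abel, cp_sg_mul]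

/-- The homogeneous component of weight `e` of a derivation. -/
noncomputable def cmpD (Θ : Derivation ℂ A A) (e : G) : Derivation ℂ A A :=
  Derivation.mk' (cmp Θ.toLinearMap e) (cmp_leibniz Θ e)

theorem cmpD_sg (Θ : Derivation ℂ A A) (e w : G) (p : ℂ[X]) (h : Cond Set.univ w p) :
    cmpD Θ e (sg w p h) = cp (w + e) (Θ (sg w p h)) := cmp_sg _ _ _ _ _

theorem cmpD_cp (Θ : Derivation ℂ A A) (e w : G) (a : A) :
    cmpD Θ e (cp w a) = cp (w + e) (Θ (cp w a)) := cmpD_sg _ _ _ _ (val_mem a w)

/-- The set of weights of the components of a derivation is finite. -/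
theorem finite_cmpD (Θ : Derivation ℂ A A) : {e | cmpD Θ e ≠ 0}.Finite := by
  classical
  have hsm := smooth_A
  have hft : Algebra.FiniteType ℂ A := inferInstance
  obtain ⟨S, hS⟩ := hft.out
  refine Set.Finite.subset (s := ↑(S.biUnion fun g => (supp g).biUnion fun w =>
    (supp (Θ (cp w g))).image (fun v => v - w))) (Finset.finite_toSet _) ?_
  intro e he
  rw [Set.mem_ofPred_eq] at he
  by_contra hcon
  apply he
  apply Derivation.ext_of_adjoin_eq_top (s := (S : Set A)) hS
  intro g hg
  rw [Derivation.zero_apply]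
  conv_lhs => rw [← sum_cp g]
  rw [map_sum]
  refine Finset.sum_eq_zero fun w hw => ?_
  rw [cmpD_cp]
  by_contra hne
  apply hcon
  simp only [Finset.coe_biUnion, Finset.mem_coe, Set.mem_iUnion, Finset.coe_image, Set.mem_image,
    exists_prop]
  exact ⟨g, hg, w, hw, w + e, mem_supp.mpr hne, by abel⟩

/-- A nonzero derivation has a nonzero component of lowest weight. -/
theorem exists_lowest {Θ : Derivation ℂ A A} (h : Θ ≠ 0) :
    ∃ e0, cmpD Θ e0 ≠ 0 ∧ ∀ e < e0, cmpD Θ e = 0 := by
  have hne : {e | cmpD Θ e ≠ 0}.Nonempty := by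
    by_contra hcon
    rw [Set.not_nonempty_iff_eq_empty, Set.eq_empty_iff_forall_notMem] at hcon
    apply h
    apply der_ext
    intro w p hp
    rw [Derivation.zero_apply]
    apply ext_cp
    intro v
    have h1 : cmpD Θ (v - w) = 0 := by
      have := hcon (v - w)
      rw [Set.mem_ofPred_eq, not_not] at this
      exact this
    have h2 := cmpD_sg Θ (v - w) w p hp
    rw [h1, Derivation.zero_apply, add_sub_cancel] at h2
    rw [← h2, map_zero]
  obtain ⟨e0, he0, hmin⟩ := Set.exists_min_image _ id (finite_cmpD Θ) hne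
  refine ⟨e0, he0, fun e he => ?_⟩
  by_contra hcon
  exact absurd (hmin e hcon) (not_le.mpr he)

section lowest
variable {Θ : Derivation ℂ A A} {e0 : G} (hlow : ∀ e < e0, cmpD Θ e = 0)
include hlow

theorem cp_low {v w : G} (hvw : v < w + e0) (a : A) : cp v (Θ (cp w a)) = 0 := by
  have h1 : v - w < e0 := by
    rw [sub_lt_iff_lt_add']
    exact hvw
  have h2 := cmpD_cp Θ (v - w) w a
  rw [hlow _ h1, Derivation.zero_apply, add_sub_cancel] at h2
  exact h2.symm

/-- If the components of `a` have weight at least `w`, then the lowest component of `Θ a` is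
`Θ₀ a_w`, of weight `w + e₀`. -/
theorem lead {w : G} {a : A} (ha : ∀ v < w, cp v a = 0) :
    (∀ v < w + e0, cp v (Θ a) = 0) ∧ cp (w + e0) (Θ a) = cmpD Θ e0 (cp w a) := by
  have hsum : ∀ v, cp v (Θ a) = ∑ u ∈ supp a, cp v (Θ (cp u a)) := by
    intro v
    conv_lhs => rw [← sum_cp a]
    rw [map_sum, map_sum]
  have hge : ∀ u ∈ supp a, w ≤ u := by
    intro u hu
    by_contra hcon
    exact mem_supp.mp hu (ha u (not_le.mp hcon))
  constructor
  · intro v hv
    rw [hsum]
    refine Finset.sum_eq_zero fun u hu => cp_low hlow ?_ a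
    exact hv.trans_le (by gcongr; exact hge u hu)
  · rw [hsum, cmpD_cp]
    by_cases hw : w ∈ supp a
    · refine Finset.sum_eq_single_of_mem w hw fun u hu huw => cp_low hlow ?_ a
      have := lt_of_le_of_ne (hge u hu) (Ne.symm huw)
      gcongr
    · have h0 : cp w a = 0 := by
        rw [mem_supp, not_not] at hw
        exact hw
      rw [h0, map_zero, map_zero]
      refine Finset.sum_eq_zero fun u hu => cp_low hlow ?_ a
      have huw : u ≠ w := fun h => hw (h ▸ hu)
      have := lt_of_le_of_ne (hge u hu) (Ne.symm huw)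
      gcongr

theorem lead_iterate {w : G} {a : A} (ha : ∀ v < w, cp v a = 0) (n : ℕ) :
    (∀ v < w + n • e0, cp v ((⇑Θ)^[n] a) = 0) ∧
      cp (w + n • e0) ((⇑Θ)^[n] a) = (⇑(cmpD Θ e0))^[n] (cp w a) := by
  induction n with
  | zero =>
    rw [zero_nsmul, add_zero]
    exact ⟨ha, rfl⟩
  | succ n ih =>
    have h1 := lead hlow (w := w + n • e0) (a := (⇑Θ)^[n] a) ih.1
    rw [add_assoc, ← succ_nsmul] at h1
    rw [Function.iterate_succ_apply', Function.iterate_succ_apply', ← ih.2]
    exact h1

/-- The lowest component of an LND is an LND. -/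
theorem isLND_lowest (hΘ : IsLND Θ) : IsLND (cmpD Θ e0) := by
  refine isLND_of_gens _ fun w p hp => ?_
  obtain ⟨n, hn⟩ := hΘ (sg w p hp)
  refine ⟨n, ?_⟩
  have h1 := (lead_iterate hlow (w := w) (a := sg w p hp) (fun v hv => cp_sg_ne hv.ne _ _) n).2
  rw [cp_sg_self] at h1
  rw [← h1, hn, map_zero]

end lowest

end Pool.Agent.helper89.Flex
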