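import Pool.Agent.helper89.Flex.LND

/-!
# The ring `A` of the example, as a subalgebra of the Laurent-type algebra `ℂ[z][M]`
-/

namespace Pool.Agent.helper89.Flex

open Polynomial AddMonoidAlgebra

/-- The weight lattice `M = {u ∈ ℤ⁴ : u₀ + u₂ = u₁ + u₃}`, with coordinates
`(s, a, b) = (u₀ + u₂, u₀, u₁)`, ordered lexicographically. -/
abbrev G : Type := ℤ ×ₗ ℤ ×ₗ ℤ

def gS (w : G) : ℤ := (ofLex w).1
def gA (w : G) : ℤ := (ofLex (ofLex w).2).1
def gB (w : G) : ℤ := (ofLex (ofLex w).2).2
def mk (s a b : ℤ) : G := toLex (s, toLex (a, b))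

@[simp] theorem gS_mk (s a b : ℤ) : gS (mk s a b) = s := rfl
@[simp] theorem gA_mk (s a b : ℤ) : gA (mk s a b) = a := rfl
@[simp] theorem gB_mk (s a b : ℤ) : gB (mk s a b) = b := rfl
@[simp] theorem gS_add (v w : G) : gS (v + w) = gS v + gS w := rfl
@[simp] theorem gA_add (v w : G) : gA (v + w) = gA v + gA w := rfl
@[simp] theorem gB_add (v w : G) : gB (v + w) = gB v + gB w := rfl
@[simp] theorem gS_neg (v : G) : gS (-v) = -gS v := rfl
@[simp] theorem gA_neg (v : G) : gA (-v) = -gA v := rfl
@[simp] theorem gB_neg (v : G) : gB (-v) = -gB v := rfl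
@[simp] theorem gS_sub (v w : G) : gS (v - w) = gS v - gS w := rfl
@[simp] theorem gA_sub (v w : G) : gA (v - w) = gA v - gA w := rfl
@[simp] theorem gB_sub (v w : G) : gB (v - w) = gB v - gB w := rfl
@[simp] theorem gS_zero : gS 0 = 0 := rfl
@[simp] theorem gA_zero : gA 0 = 0 := rfl
@[simp] theorem gB_zero : gB 0 = 0 := rfl
@[simp] theorem gS_nsmul (n : ℕ) (v : G) : gS (n • v) = n * gS v := by
  induction n with
  | zero => simp
  | succ n ih => rw [succ_nsmul, gS_add, ih]; push_cast; ring
@[simp] theorem gA_nsmul (n : ℕ) (v : G) : gA (n • v) = n * gA v := by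
  induction n with
  | zero => simp
  | succ n ih => rw [succ_nsmul, gA_add, ih]; push_cast; ring
@[simp] theorem gB_nsmul (n : ℕ) (v : G) : gB (n • v) = n * gB v := by
  induction n with
  | zero => simp
  | succ n ih => rw [succ_nsmul, gB_add, ih]; push_cast; ring

theorem G_ext {v w : G} (h1 : gS v = gS w) (h2 : gA v = gA w) (h3 : gB v = gB w) : v = w :=
  toLex.symm.injective (Prod.ext h1 (toLex.symm.injective (Prod.ext h2 h3)))

/-- The coordinates `u₀, u₁, u₂, u₃` of a weight. -/
def co : Fin 4 → G → ℤ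
  | 0, w => gA w
  | 1, w => gB w
  | 2, w => gS w - gA w
  | 3, w => gS w - gB w

theorem co_add (i : Fin 4) (v w : G) : co i (v + w) = co i v + co i w := by
  fin_cases i <;> simp [co] <;> ring

/-- The coordinates as additive maps. -/
def coHom (i : Fin 4) : G →+ ℤ := AddMonoidHom.mk' (co i) (co_add i)

theorem coHom_apply (i : Fin 4) (w : G) : coHom i w = co i w := rfl

theorem co_zero (i : Fin 4) : co i 0 = 0 := (coHom i).map_zero
theorem co_neg (i : Fin 4) (w : G) : co i (-w) = - co i w := (coHom i).map_neg w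
theorem co_sub (i : Fin 4) (v w : G) : co i (v - w) = co i v - co i w := (coHom i).map_sub v w
theorem co_nsmul (i : Fin 4) (n : ℕ) (w : G) : co i (n • w) = n * co i w := by
  have := (coHom i).map_nsmul n w
  simpa [coHom_apply] using this

theorem co_rel (w : G) : co 0 w + co 2 w = co 1 w + co 3 w := by simp [co]

theorem G_ext_co {v w : G} (h : ∀ i, co i v = co i w) : v = w := by
  have h0 := h 0; have h1 := h 1; have h2 := h 2
  simp only [co] at h0 h1 h2
  exact G_ext (by omega) h0 h1

/-- The four points `z₀, …, z₃ = 0, 1, 2, 3`. -/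
def zv (i : Fin 4) : ℂ := ((i : ℕ) : ℂ)

theorem zv_injective : Function.Injective zv := by
  intro i j h
  unfold zv at h
  exact Fin.ext (by exact_mod_cast h)

/-- The multiplicity `κ(n) = max(0, ⌈-n/2⌉)`. -/
def kap (n : ℤ) : ℕ := ((1 - n) / 2).toNat

theorem kap_add_le (m n : ℤ) : kap (m + n) ≤ kap m + kap n := by unfold kap; omega
theorem kap_zero : kap 0 = 0 := rfl
theorem kap_of_nonneg {n : ℤ} (h : 0 ≤ n) : kap n = 0 := by unfold kap; omega
theorem kap_mono {m n : ℤ} (h : m ≤ n) : kap n ≤ kap m := by unfold kap; omega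
theorem kap_spec (n : ℤ) : 0 ≤ n + 2 * kap n := by unfold kap; omega
theorem kap_le_iff {n : ℤ} {k : ℕ} : kap n ≤ k ↔ 0 ≤ n + 2 * k := by unfold kap; omega

/-- The ambient Laurent-type algebra `ℂ[z][M]`. -/
abbrev L : Type := AddMonoidAlgebra ℂ[X] G

/-- The linear polynomials `z - z_i`. -/
noncomputable def lin (i : Fin 4) : ℂ[X] := X - C (zv i)

theorem lin_ne_zero (i : Fin 4) : lin i ≠ 0 := X_sub_C_ne_zero _

theorem derivative_lin (i : Fin 4) : derivative (lin i) = 1 := by simp [lin]

/-- The divisibility condition in weight `w` at the indices in `J`. -/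
def Cond (J : Set (Fin 4)) (w : G) (p : ℂ[X]) : Prop := ∀ i ∈ J, lin i ^ kap (co i w) ∣ p

theorem Cond.add {J : Set (Fin 4)} {w : G} {p q : ℂ[X]} (hp : Cond J w p) (hq : Cond J w q) :
    Cond J w (p + q) := fun i hi => dvd_add (hp i hi) (hq i hi)

theorem Cond.zero {J : Set (Fin 4)} {w : G} : Cond J w 0 := fun _ _ => dvd_zero _

theorem Cond.neg {J : Set (Fin 4)} {w : G} {p : ℂ[X]} (hp : Cond J w p) :
    Cond J w (-p) := fun i hi => (dvd_neg).mpr (hp i hi)

theorem Cond.sub {J : Set (Fin 4)} {w : G} {p q : ℂ[X]} (hp : Cond J w p) (hq : Cond J w q) :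
    Cond J w (p - q) := fun i hi => dvd_sub (hp i hi) (hq i hi)

theorem Cond.sum {J : Set (Fin 4)} {w : G} {ι : Type*} (s : Finset ι) (p : ι → ℂ[X])
    (hp : ∀ i ∈ s, Cond J w (p i)) : Cond J w (∑ i ∈ s, p i) :=
  fun i hi => Finset.dvd_sum fun j hj => hp j hj i hi

theorem Cond.mul {J : Set (Fin 4)} {v w : G} {p q : ℂ[X]} (hp : Cond J v p) (hq : Cond J w q) :
    Cond J (v + w) (p * q) := by
  intro i hi
  refine (pow_dvd_pow _ ?_).trans (by rw [pow_add]; exact mul_dvd_mul (hp i hi) (hq i hi))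
  rw [co_add]
  exact kap_add_le _ _

theorem Cond.mul_left {J : Set (Fin 4)} {w : G} {p : ℂ[X]} (hp : Cond J w p) (q : ℂ[X]) :
    Cond J w (q * p) := fun i hi => (hp i hi).mul_left q

theorem Cond.smul {J : Set (Fin 4)} {w : G} {p : ℂ[X]} (hp : Cond J w p) (c : ℂ) :
    Cond J w (c • p) := fun i hi => (hp i hi).trans (by rw [smul_eq_C_mul]; exact dvd_mul_left _ _)

theorem Cond.of_nonneg {J : Set (Fin 4)} {w : G} (h : ∀ i ∈ J, 0 ≤ co i w) (p : ℂ[X]) :
    Cond J w p := fun i hi => by rw [kap_of_nonneg (h i hi), pow_zero]; exact one_dvd _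

theorem Cond.mono {J : Set (Fin 4)} {v w : G} {p : ℂ[X]} (hp : Cond J v p)
    (h : ∀ i ∈ J, co i v ≤ co i w) : Cond J w p :=
  fun i hi => (pow_dvd_pow _ (kap_mono (h i hi))).trans (hp i hi)

theorem Cond.subset {J K : Set (Fin 4)} {w : G} {p : ℂ[X]} (hp : Cond J w p)
    (h : K ⊆ J) : Cond K w p := fun i hi => hp i (h hi)

/-- The subalgebra of `L` cut out by the divisibility conditions at the indices in `J`. -/
def As (J : Set (Fin 4)) : Subalgebra ℂ L where
  carrier := {f | ∀ w, Cond J w (f.coeff w)}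
  mul_mem' := by
    intro f g hf hg w
    classical
    rw [AddMonoidAlgebra.coeff_mul]
    refine Cond.sum _ _ fun v hv => Cond.sum _ _ fun v' hv' => ?_
    dsimp only
    split_ifs with h
    · rw [← h]; exact (hf v).mul (hg v')
    · exact Cond.zero
  add_mem' := by
    intro f g hf hg w
    rw [AddMonoidAlgebra.coeff_add, Finsupp.add_apply]
    exact (hf w).add (hg w)
  algebraMap_mem' := by
    intro c w
    rw [AddMonoidAlgebra.coe_algebraMap]
    simp only [Function.comp_apply, coeff_single]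
    rw [Finsupp.single_apply]
    split_ifs with h
    · subst h
      exact Cond.of_nonneg (fun i _ => by rw [co_zero]) _
    · exact Cond.zero

theorem mem_As {J : Set (Fin 4)} {f : L} : f ∈ As J ↔ ∀ w, Cond J w (f.coeff w) := Iff.rfl

theorem single_mem_As {J : Set (Fin 4)} {w : G} {p : ℂ[X]} : single w p ∈ As J ↔ Cond J w p := by
  rw [mem_As]
  constructor
  · intro h
    have := h w
    simpa using this
  · intro h v
    simp only [coeff_single]
    rw [Finsupp.single_apply]
    split_ifs with hv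
    · subst hv; exact h
    · exact Cond.zero

/-- The ring `As J` as a type of its own; `Ax Set.univ` is the coordinate ring of the example. -/
def Ax (J : Set (Fin 4)) : Type := ↥(As J)

noncomputable instance (J : Set (Fin 4)) : CommRing (Ax J) := inferInstanceAs (CommRing ↥(As J))
noncomputable instance (J : Set (Fin 4)) : Algebra ℂ (Ax J) := inferInstanceAs (Algebra ℂ ↥(As J))
instance (J : Set (Fin 4)) : IsDomain (Ax J) := inferInstanceAs (IsDomain ↥(As J))

/-- The inclusion of `Ax J` into `L`. -/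
noncomputable def val (J : Set (Fin 4)) : Ax J →ₐ[ℂ] L := (As J).val

theorem val_injective (J : Set (Fin 4)) : Function.Injective (val J) := Subtype.val_injective

theorem val_mem {J : Set (Fin 4)} (a : Ax J) : val J a ∈ As J := a.2

/-- Make an element of `Ax J` from an element of `L`. -/
def mkA {J : Set (Fin 4)} (f : L) (h : f ∈ As J) : Ax J := ⟨f, h⟩

@[simp] theorem val_mkA {J : Set (Fin 4)} (f : L) (h : f ∈ As J) : val J (mkA f h) = f := rfl

theorem Ax_ext {J : Set (Fin 4)} {a b : Ax J} (h : val J a = val J b) : a = b :=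
  val_injective J h

/-- Homogeneous elements of `Ax J`. -/
noncomputable def sg {J : Set (Fin 4)} (w : G) (p : ℂ[X]) (h : Cond J w p) : Ax J :=
  mkA (single w p) (single_mem_As.mpr h)

@[simp] theorem val_sg {J : Set (Fin 4)} (w : G) (p : ℂ[X]) (h : Cond J w p) :
    val J (sg w p h) = single w p := rfl

theorem sg_congr {J : Set (Fin 4)} {v w : G} {p q : ℂ[X]} (h : Cond J v p) (h' : Cond J w q)
    (h1 : v = w) (h2 : p = q) : sg v p h = sg w q h' := by
  subst h1; subst h2; rfl

theorem sg_mul {J : Set (Fin 4)} {v w : G} {p q : ℂ[X]} (h : Cond J v p) (h' : Cond J w q) :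
    sg v p h * sg w q h' = sg (v + w) (p * q) (h.mul h') :=
  Ax_ext (by simp)

theorem sg_add {J : Set (Fin 4)} {w : G} {p q : ℂ[X]} (h : Cond J w p) (h' : Cond J w q) :
    sg w p h + sg w q h' = sg w (p + q) (h.add h') :=
  Ax_ext (by simp)

theorem sg_smul {J : Set (Fin 4)} {w : G} {p : ℂ[X]} (h : Cond J w p) (c : ℂ) :
    c • sg w p h = sg w (c • p) (h.smul c) :=
  Ax_ext (by simp)

theorem sg_zero {J : Set (Fin 4)} {w : G} (h : Cond J w 0) : sg w 0 h = 0 :=
  Ax_ext (by simp)

theorem sg_eq_zero_iff {J : Set (Fin 4)} {w : G} {p : ℂ[X]} (h : Cond J w p) :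
    sg w p h = 0 ↔ p = 0 := by
  constructor
  · intro h0
    have := congrArg (val J) h0
    simpa using this
  · intro h0
    subst h0
    exact sg_zero h

theorem Ax_induction {J : Set (Fin 4)} {P : Ax J → Prop} (h0 : P 0)
    (hadd : ∀ a b, P a → P b → P (a + b)) (hs : ∀ w p (h : Cond J w p), P (sg w p h))
    (a : Ax J) : P a := by
  classical
  have h2 : a = ∑ w ∈ (val J a).coeff.support, sg w ((val J a).coeff w) (val_mem a w) := by
    apply Ax_ext
    rw [map_sum]
    simp only [val_sg]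
    conv_lhs => rw [← sum_coeff_single (val J a)]
    rfl
  rw [h2]
  exact Finset.sum_induction _ P hadd h0 fun w _ => hs w _ _

end Pool.Agent.helper89.Flex
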