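import Pool.Agent.helper89.Flex.Charts

/-!
# Smoothness of the example
-/

namespace Pool.Agent.helper89.Flex

open Polynomial AddMonoidAlgebra

theorem val_al23 (i : Fin 4) (N : ℕ) :
    val {i} ((al i 2 * al i 3) ^ N) = single (N • (aw i 2 + aw i 3)) 1 := by
  simp [al, ap]

theorem surj_monomial (i : Fin 4) (w : G) (j : ℕ) (c : ℂ) (hw : 0 ≤ co i w + 2 * j) :
    ∃ (N : ℕ) (P : MvPolynomial (Fin 4) ℂ),
      single w (C c * lin i ^ j) * val {i} ((al i 2 * al i 3) ^ N) =
        val {i} (MvPolynomial.aeval (al i) P) := by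
  obtain ⟨m1, hm1⟩ : ∃ m : ℕ, (m : ℤ) = co i w + 2 * j := ⟨_, Int.toNat_of_nonneg hw⟩
  obtain ⟨N, hN1, hN2⟩ : ∃ N : ℕ, 0 ≤ co (i + 1) w - co i w - 2 * j + N ∧
      0 ≤ co (i + 3) w + N :=
    ⟨(|co (i + 1) w - co i w - 2 * j| + |co (i + 3) w|).toNat, by
      rw [Int.toNat_of_nonneg (by positivity)]
      have h1 := neg_abs_le (co (i + 1) w - co i w - 2 * j)
      have h2 := abs_nonneg (co (i + 3) w)
      omega, by
      rw [Int.toNat_of_nonneg (by positivity)]
      have h1 := neg_abs_le (co (i + 3) w)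
      have h2 := abs_nonneg (co (i + 1) w - co i w - 2 * j)
      omega⟩
  obtain ⟨m2, hm2⟩ : ∃ m : ℕ, (m : ℤ) = co (i + 1) w - co i w - 2 * j + N :=
    ⟨_, Int.toNat_of_nonneg hN1⟩
  obtain ⟨m3, hm3⟩ : ∃ m : ℕ, (m : ℤ) = co (i + 3) w + N := ⟨_, Int.toNat_of_nonneg hN2⟩
  refine ⟨N, MvPolynomial.monomial (Finsupp.equivFunOnFinite.symm ![j, m1, m2, m3]) c, ?_⟩
  rw [val_aeval_monomial, val_al23, single_mul_single, mul_one]
  obtain ⟨⟨a0, a1, a2, a3⟩, ⟨b0, b1, b2, b3⟩, ⟨c0, c1, c2, c3⟩⟩ := co_aw i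
  obtain ⟨h1, h2, h3⟩ := co_wt i (Finsupp.equivFunOnFinite.symm ![j, m1, m2, m3])
  have e0 : (Finsupp.equivFunOnFinite.symm ![j, m1, m2, m3] : Fin 4 →₀ ℕ) 0 = j := rfl
  have e1 : (Finsupp.equivFunOnFinite.symm ![j, m1, m2, m3] : Fin 4 →₀ ℕ) 1 = m1 := rfl
  have e2 : (Finsupp.equivFunOnFinite.symm ![j, m1, m2, m3] : Fin 4 →₀ ℕ) 2 = m2 := rfl
  have e3 : (Finsupp.equivFunOnFinite.symm ![j, m1, m2, m3] : Fin 4 →₀ ℕ) 3 = m3 := rfl
  rw [e0, e1] at h1
  rw [e1, e2] at h2
  rw [e3] at h3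
  rw [e0]
  congr 1
  apply G_ext_co3 i
  · rw [h1, co_add, co_nsmul, co_add, a2, a3]; omega
  · rw [h2, co_add, co_nsmul, co_add, b2, b3]; omega
  · rw [h3, co_add, co_nsmul, co_add, c2, c3]; omega

theorem surj_add {i : Fin 4} {a b : L}
    (ha : ∃ (N : ℕ) (P : MvPolynomial (Fin 4) ℂ),
      a * val {i} ((al i 2 * al i 3) ^ N) = val {i} (MvPolynomial.aeval (al i) P))
    (hb : ∃ (N : ℕ) (P : MvPolynomial (Fin 4) ℂ),
      b * val {i} ((al i 2 * al i 3) ^ N) = val {i} (MvPolynomial.aeval (al i) P)) :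
    ∃ (N : ℕ) (P : MvPolynomial (Fin 4) ℂ),
      (a + b) * val {i} ((al i 2 * al i 3) ^ N) = val {i} (MvPolynomial.aeval (al i) P) := by
  obtain ⟨M, P, hP⟩ := ha
  obtain ⟨N, Q, hQ⟩ := hb
  refine ⟨M + N, P * (MvPolynomial.X 2 * MvPolynomial.X 3) ^ N +
    Q * (MvPolynomial.X 2 * MvPolynomial.X 3) ^ M, ?_⟩
  simp only [map_add, map_mul, map_pow, MvPolynomial.aeval_X] at hP hQ ⊢
  rw [← hP, ← hQ, pow_add]
  ring

theorem surj_sg (i : Fin 4) (k : ℕ) (r : ℂ[X]) : ∀ (w : G), 0 ≤ co i w + 2 * k →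
    ∃ (N : ℕ) (P : MvPolynomial (Fin 4) ℂ),
      single w (lin i ^ k * r) * val {i} ((al i 2 * al i 3) ^ N) =
        val {i} (MvPolynomial.aeval (al i) P) := by
  have key : ∀ s : ℂ[X], ∀ (w : G), 0 ≤ co i w + 2 * k →
      ∃ (N : ℕ) (P : MvPolynomial (Fin 4) ℂ),
      single w (lin i ^ k * s.comp (lin i)) * val {i} ((al i 2 * al i 3) ^ N) =
        val {i} (MvPolynomial.aeval (al i) P) := by
    intro s
    induction s using Polynomial.induction_on' with
    | add p q hp hq =>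
      intro w hw
      rw [add_comp, mul_add, single_add]
      exact surj_add (hp w hw) (hq w hw)
    | monomial n c =>
      intro w hw
      have h1 : lin i ^ k * (monomial n c).comp (lin i) = C c * lin i ^ (k + n) := by
        rw [← C_mul_X_pow_eq_monomial, mul_comp, C_comp, pow_comp, X_comp, pow_add]
        ring
      rw [h1]
      refine surj_monomial i w (k + n) c ?_
      push_cast
      omega
  intro w hw
  have h2 : (r.comp (X + C (zv i))).comp (lin i) = r := by
    rw [comp_assoc, add_comp, X_comp, C_comp, lin, sub_add_cancel, comp_X]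
  have := key (r.comp (X + C (zv i))) w hw
  rwa [h2] at this

theorem surj_Ax (i : Fin 4) (a : Ax {i}) :
    ∃ (N : ℕ) (P : MvPolynomial (Fin 4) ℂ),
      a * (al i 2 * al i 3) ^ N = MvPolynomial.aeval (al i) P := by
  have key : ∃ (N : ℕ) (P : MvPolynomial (Fin 4) ℂ),
      val {i} a * val {i} ((al i 2 * al i 3) ^ N) = val {i} (MvPolynomial.aeval (al i) P) := by
    induction a using Ax_induction with
    | h0 => exact ⟨0, 0, by simp⟩
    | hadd a b ha hb => rw [map_add]; exact surj_add ha hb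
    | hs w p hp =>
      obtain ⟨r, hr⟩ := hp i rfl
      have := surj_sg i (kap (co i w)) r w (kap_spec _)
      rw [← hr] at this
      exact this
  obtain ⟨N, P, h⟩ := key
  exact ⟨N, P, val_injective _ (by rw [map_mul]; exact h)⟩

theorem isUnit_al23 (i : Fin 4) : IsUnit (al i 2 * al i 3) := by
  obtain ⟨⟨a0, a1, a2, a3⟩, -⟩ := co_aw i
  have hc : ∀ j ∈ ({i} : Set (Fin 4)), 0 ≤ co j (-(aw i 2 + aw i 3)) := by
    intro j hj
    rw [Set.mem_singleton_iff] at hj
    subst hj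
    rw [co_neg, co_add, a2, a3]
    norm_num
  refine IsUnit.of_mul_eq_one (mo (-(aw i 2 + aw i 3)) hc) ?_
  apply Ax_ext
  rw [map_mul, ← pow_one (al i 2 * al i 3), val_al23, val_mo, single_mul_single, one_nsmul,
    add_neg_cancel, one_mul, map_one]
  rfl

/-- The chart `Ax {i}` is smooth: it is the localisation of a polynomial ring in four variables. -/
theorem smooth_chart (i : Fin 4) : Algebra.Smooth ℂ (Ax {i}) := by
  let _ : Algebra (MvPolynomial (Fin 4) ℂ) (Ax {i}) := (MvPolynomial.aeval (al i)).toAlgebra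
  have hmap : ∀ P : MvPolynomial (Fin 4) ℂ,
      algebraMap (MvPolynomial (Fin 4) ℂ) (Ax {i}) P = MvPolynomial.aeval (al i) P := fun _ => rfl
  have : IsScalarTower ℂ (MvPolynomial (Fin 4) ℂ) (Ax {i}) :=
    IsScalarTower.of_algebraMap_eq fun c => by
      rw [hmap, AlgHom.commutes]
  have : IsLocalization.Away (MvPolynomial.X 2 * MvPolynomial.X 3 : MvPolynomial (Fin 4) ℂ)
      (Ax {i}) := by
    refine IsLocalization.Away.mk _ ?_ ?_ ?_
    · rw [hmap, map_mul, MvPolynomial.aeval_X, MvPolynomial.aeval_X]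
      exact isUnit_al23 i
    · intro a
      obtain ⟨N, P, h⟩ := surj_Ax i a
      refine ⟨N, P, ?_⟩
      rw [hmap, hmap, map_mul, MvPolynomial.aeval_X, MvPolynomial.aeval_X]
      exact h
    · intro a b h
      exact ⟨0, by rw [aeval_al_injective i h]⟩
  have : Algebra.Smooth (MvPolynomial (Fin 4) ℂ) (Ax {i}) :=
    Algebra.Smooth.of_isLocalization_Away (MvPolynomial.X 2 * MvPolynomial.X 3)
  have : Algebra.Smooth ℂ (MvPolynomial (Fin 4) ℂ) := ⟨inferInstance, inferInstance⟩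
  exact Algebra.Smooth.comp ℂ (MvPolynomial (Fin 4) ℂ) (Ax {i})

/-- Multiplying by a large power of `f_i` moves `Ax {i}` into `Ax univ`. -/
theorem surj_incl (i : Fin 4) (a : Ax {i}) :
    ∃ (N : ℕ) (b : Ax Set.univ),
      a * (incl (Set.subset_univ {i}) (ff Set.univ i)) ^ N = incl (Set.subset_univ {i}) b := by
  induction a using Ax_induction with
  | h0 => exact ⟨0, 0, by simp⟩
  | hadd a b ha hb =>
    obtain ⟨M, P, hP⟩ := ha
    obtain ⟨N, Q, hQ⟩ := hb
    refine ⟨M + N, P * ff Set.univ i ^ N + Q * ff Set.univ i ^ M, ?_⟩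
    simp only [map_add, map_mul, map_pow]
    rw [← hP, ← hQ, pow_add]
    ring
  | hs w p hp =>
    obtain ⟨N, hN⟩ : ∃ N : ℕ, ∀ j : Fin 4, 0 ≤ co j w + N := by
      refine ⟨(|co 0 w| + |co 1 w| + |co 2 w| + |co 3 w|).toNat, fun j => ?_⟩
      rw [Int.toNat_of_nonneg (by positivity)]
      have h0 := neg_abs_le (co 0 w)
      have h1 := neg_abs_le (co 1 w)
      have h2 := neg_abs_le (co 2 w)
      have h3 := neg_abs_le (co 3 w)
      have g0 := abs_nonneg (co 0 w)
      have g1 := abs_nonneg (co 1 w)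
      have g2 := abs_nonneg (co 2 w)
      have g3 := abs_nonneg (co 3 w)
      fin_cases j <;> simp only [Fin.mk_zero, Fin.mk_one, Fin.reduceFinMk, Fin.zero_eta] <;> omega
    have hc : Cond Set.univ (w + N • fw i) p := by
      intro j _
      by_cases hj : j = i
      · subst hj
        rw [co_add, co_nsmul, co_fw_self, mul_zero, add_zero]
        exact hp j rfl
      · rw [co_add, co_nsmul, kap_of_nonneg, pow_zero]
        · exact one_dvd _
        · have h1 := co_fw_ne hj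
          have h2 := hN j
          nlinarith
    refine ⟨N, sg (w + N • fw i) p hc, ?_⟩
    apply Ax_ext
    rw [map_mul, map_pow, val_incl, val_incl, val_ff, val_sg, val_sg, single_pow,
      single_mul_single, one_pow, mul_one]

theorem isUnit_incl_ff (i : Fin 4) :
    IsUnit (incl (Set.subset_univ {i}) (ff Set.univ i) : Ax {i}) := by
  have hc : ∀ j ∈ ({i} : Set (Fin 4)), 0 ≤ co j (-fw i) := by
    intro j hj
    rw [Set.mem_singleton_iff] at hj
    subst hj
    rw [co_neg, co_fw_self]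
    norm_num
  refine IsUnit.of_mul_eq_one (mo (-fw i) hc) ?_
  apply Ax_ext
  rw [map_mul, val_incl, val_ff, val_mo, single_mul_single, add_neg_cancel, one_mul, map_one]
  rfl

/-- The coordinate ring of the example is smooth over `ℂ`. -/
theorem smooth_A : Algebra.Smooth ℂ (Ax Set.univ) := by
  rw [← RingHom.smooth_algebraMap]
  refine RingHom.Smooth.ofLocalizationSpanTarget.ofIsLocalization RingHom.Smooth.respectsIso
    (algebraMap ℂ (Ax Set.univ)) _ span_ff ?_
  rintro ⟨_, i, rfl⟩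
  let _ : Algebra (Ax Set.univ) (Ax {i}) := (incl (Set.subset_univ {i})).toAlgebra
  have hmap : ∀ a : Ax Set.univ,
      algebraMap (Ax Set.univ) (Ax {i}) a = incl (Set.subset_univ {i}) a := fun _ => rfl
  refine ⟨Ax {i}, inferInstance, inferInstance, ?_, ?_⟩
  · refine IsLocalization.Away.mk _ ?_ ?_ ?_
    · rw [hmap]; exact isUnit_incl_ff i
    · intro a
      obtain ⟨N, b, h⟩ := surj_incl i a
      exact ⟨N, b, by rw [hmap, hmap]; exact h⟩
    · intro a b h
      refine ⟨0, ?_⟩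
      have : a = b := Ax_ext (by
        have := congrArg (val {i}) h
        rwa [hmap, hmap, val_incl, val_incl] at this)
      rw [this]
  · have h1 : (algebraMap (Ax Set.univ) (Ax {i})).comp (algebraMap ℂ (Ax Set.univ)) =
        algebraMap ℂ (Ax {i}) := by
      ext c
      rw [RingHom.comp_apply, hmap, AlgHom.commutes]
    rw [h1, RingHom.smooth_algebraMap]
    exact smooth_chart i

end Pool.Agent.helper89.Flex
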